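import Pool.Agent.Helper5_THX.Max
import Pool.Agent.Helper10_THX.Cnt
import Pool.Agent.Helper13_THX.BDV
import Pool.Agent.Helper17_THX.Rsd
import Pool.Agent.Helper26_THX.Her
import Pool.Agent.Helper26_THX.Dsq
import Pool.Agent.Helper27_THX.Gn2
import Pool.Agent.Helper27_THX.Gst
import Pool.Agent.Helper43_THX.SBS
import Pool.Agent.Helper59_THX.Prm
import Pool.Agent.Helper65_THX.Hen
import Pool.Agent.Helper79_THX.Trc
import Pool.Agent.Helper79_THX.Cho

/-!
# The number of number fields
-/

namespace Pool.Agent.Helper79FreyD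

/-- The number of number fields of degree `n ≤ 2 ^ r` and absolute discriminant at most `N` is
`O (N ^ (r (2 r + 1) + ε))`, with generators. -/
theorem gstStmt : THX.GstStmt :=
  THX.H27.gst Helper43Frey.sbs Helper26_THX.her THX.H79.cho THX.H79.trc
    (Helper26_THX.dsq THX.H79.trc)
    (THX.H10.cnt Helper13_THX.bdv THX.H65.hen THX.H17.rsd THX.H59.prm THX.H5.max) THX.H27.gn2

end Pool.Agent.Helper79FreyD
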