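import Pool.Agent.Helper65_FreyD.All

/-!
# Small lemmas for the hand-in
-/

namespace Pool.Agent.Helper79FreyD

open Helper65FreyD Polynomial

lemma box_finite (n H : ℕ) {S : Set (Fin (n - 1) → ℤ)}
    (hS : ∀ a ∈ S, ∀ i, |a i| ≤ (H : ℤ) ^ (n - (i : ℕ))) : S.Finite := by
  have h3 : S ⊆ Set.pi Set.univ (fun i : Fin (n - 1) =>
      Set.Icc (-(H : ℤ) ^ (n - (i : ℕ))) ((H : ℤ) ^ (n - (i : ℕ)))) := by
    intro a ha i _
    exact abs_le.mp (hS a ha i)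
  exact (Set.Finite.pi fun i => Set.finite_Icc _ _).subset h3

lemma freyHoldsSep_mono {m : ℕ} {κ C C' : ℝ} {f : ℤ[X]} (h : C ≤ C')
    (hF : FreyHoldsSep m κ C f) : FreyHoldsSep m κ C' f :=
  ⟨hF.1, hF.2.1, hF.2.2.trans (by linarith)⟩

lemma freyHoldsSep_of_irr {m n : ℕ} {κ C : ℝ} (hn : 2 ≤ n) {a : Fin (n - 1) → ℤ}
    (hi : Irreducible (toQ (mpoly n a))) (hF : FreyHolds m κ C (mpoly n a)) :
    FreyHoldsSep m κ C (mpoly n a) := by
  obtain ⟨hfact, g1, g2⟩ := hF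
  refine ⟨hi.separable, g1, ?_⟩
  rw [prodDisc_irr ((monic_mpoly n hn a).map _) hi, dq_toQ]
  exact g2

end Pool.Agent.Helper79FreyD
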