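import Mathlib

/-!
# Counting algebraic integers with small conjugates, uniformly in the number field
-/

namespace Pool.Agent.Helper79FreyD

open NumberField Module

variable (K : Type*) [Field K] [NumberField K]

/-- The algebraic integers of `K` all of whose conjugates have absolute value at most `R`. -/
def small (R : ℝ) : Set (𝓞 K) := {x | ∀ φ : K →+* ℂ, ‖φ (x : K)‖ ≤ R}

variable {K}

lemma eq_zero_of_norm_lt_one (x : 𝓞 K) (h : ∀ φ : K →+* ℂ, ‖φ (x : K)‖ < 1) : x = 0 := by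
  by_contra hx
  obtain ⟨w⟩ : Nonempty (InfinitePlace K) := inferInstance
  have h1 := InfinitePlace.one_le_of_lt_one (w := w) hx (fun z _ => by
    have := h z.embedding
    rwa [InfinitePlace.norm_embedding_eq] at this)
  have h2 := h w.embedding
  rw [InfinitePlace.norm_embedding_eq] at h2
  linarith

lemma injOn_quot (R : ℝ) (m : ℕ) (hm : 2 * R < m) (hR : 0 ≤ R) :
    Set.InjOn (Ideal.Quotient.mk (Ideal.span {(m : 𝓞 K)})) (small K R) := by
  intro x hx y hy hxy
  rw [Ideal.Quotient.mk_eq_mk_iff_sub_mem, Ideal.mem_span_singleton] at hxy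
  obtain ⟨z, hz⟩ := hxy
  have hm0 : (0 : ℝ) < m := by linarith
  have hz0 : z = 0 := by
    apply eq_zero_of_norm_lt_one
    intro φ
    have h1 : φ ((x : K)) - φ (y : K) = (m : ℂ) * φ (z : K) := by
      have h2 : ((x - y : 𝓞 K) : K) = ((m : 𝓞 K) * z : 𝓞 K) := by rw [hz]
      have h3 : (x : K) - (y : K) = (m : K) * (z : K) := by
        simpa using h2
      rw [← map_sub, h3, map_mul, map_natCast]
    have h4 : (m : ℝ) * ‖φ (z : K)‖ ≤ 2 * R := by
      have h5 : ‖(m : ℂ) * φ (z : K)‖ = m * ‖φ (z : K)‖ := by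
        rw [norm_mul, Complex.norm_natCast]
      rw [← h5, ← h1]
      calc _ ≤ ‖φ (x : K)‖ + ‖φ (y : K)‖ := norm_sub_le _ _
        _ ≤ R + R := add_le_add (hx φ) (hy φ)
        _ = 2 * R := by ring
    by_contra hcon
    rw [not_lt] at hcon
    nlinarith
  rw [hz0, mul_zero] at hz
  exact sub_eq_zero.mp hz

lemma natCard_quot (m : ℕ) :
    Nat.card (𝓞 K ⧸ Ideal.span {(m : 𝓞 K)}) = m ^ finrank ℚ K := by
  have h1 := Ideal.absNorm_span_singleton (m : 𝓞 K)
  rw [← Submodule.cardQuot_apply, ← Ideal.absNorm_apply, h1]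
  have h2 : (m : 𝓞 K) = algebraMap ℤ (𝓞 K) (m : ℤ) := by simp
  rw [h2, Algebra.norm_algebraMap, RingOfIntegers.rank]
  simp

lemma finite_quot (m : ℕ) (hm : m ≠ 0) : Finite (𝓞 K ⧸ Ideal.span {(m : 𝓞 K)}) := by
  apply Nat.finite_of_card_ne_zero
  rw [natCard_quot m]
  positivity

lemma small_finite (R : ℝ) (hR : 0 ≤ R) : (small K R).Finite := by
  have hm : 2 * R < ((⌊2 * R⌋₊ + 1 : ℕ) : ℝ) := by
    push_cast
    exact Nat.lt_floor_add_one _
  have := finite_quot (K := K) (⌊2 * R⌋₊ + 1) (by omega)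
  exact Set.Finite.of_injOn (t := Set.univ) (fun _ _ => Set.mem_univ _)
    (injOn_quot R _ hm hR) Set.finite_univ

lemma small_ncard (R : ℝ) (hR : 0 ≤ R) :
    ((small K R).ncard : ℝ) ≤ (2 * R + 1) ^ finrank ℚ K := by
  have hm : 2 * R < ((⌊2 * R⌋₊ + 1 : ℕ) : ℝ) := by
    push_cast
    exact Nat.lt_floor_add_one _
  have := finite_quot (K := K) (⌊2 * R⌋₊ + 1) (by omega)
  have h1 : (small K R).ncard ≤ (Set.univ : Set (𝓞 K ⧸
      Ideal.span {((⌊2 * R⌋₊ + 1 : ℕ) : 𝓞 K)})).ncard :=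
    Set.ncard_le_ncard_of_injOn _ (fun _ _ => Set.mem_univ _) (injOn_quot R _ hm hR)
      Set.finite_univ
  rw [Set.ncard_univ, natCard_quot _] at h1
  calc ((small K R).ncard : ℝ) ≤ (((⌊2 * R⌋₊ + 1) ^ finrank ℚ K : ℕ) : ℝ) := by
        exact_mod_cast h1
    _ ≤ _ := by
        push_cast
        have := Nat.floor_le (show 0 ≤ 2 * R by positivity)
        gcongr

variable (K) in
/-- The algebraic integers of trace zero all of whose conjugates have absolute value at most
`R`. -/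
def small0 (R : ℝ) : Set (𝓞 K) := {x | x ∈ small K R ∧ Algebra.trace ℚ K (x : K) = 0}

lemma small0_finite (R : ℝ) (hR : 0 ≤ R) : (small0 K R).Finite :=
  (small_finite R hR).subset fun _ h => h.1

lemma small0_mul (R : ℝ) (hR : 1 ≤ R) :
    (small0 K R).ncard * ⌈R⌉₊ ≤ (small K (R + ⌈R⌉₊)).ncard := by
  set L : ℕ := ⌈R⌉₊ with hL
  have hn : 0 < finrank ℚ K := finrank_pos
  have key : ((small0 K R) ×ˢ (Finset.Icc 1 L : Set ℕ)).ncard ≤ (small K (R + L)).ncard := by
    refine Set.ncard_le_ncard_of_injOn (fun p : 𝓞 K × ℕ => p.1 + (p.2 : 𝓞 K)) ?_ ?_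
      (small_finite _ (by positivity))
    · rintro ⟨x, c⟩ ⟨hx, hc⟩
      intro φ
      rw [Finset.coe_Icc, Set.mem_Icc] at hc
      have h1 : φ (((x + (c : 𝓞 K) : 𝓞 K)) : K) = φ (x : K) + c := by
        simp
      rw [h1]
      refine (norm_add_le _ _).trans ?_
      rw [Complex.norm_natCast]
      have : (c : ℝ) ≤ L := by exact_mod_cast hc.2
      linarith [hx.1 φ]
    · rintro ⟨x, c⟩ ⟨hx, hc⟩ ⟨y, d⟩ ⟨hy, hd⟩ hxy
      have h1 : (x : K) + (c : K) = (y : K) + (d : K) := by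
        have := congrArg (fun z : 𝓞 K => (z : K)) hxy
        simpa using this
      have h2 := congrArg (Algebra.trace ℚ K) h1
      have h3 : ∀ e : ℕ, Algebra.trace ℚ K (e : K) = finrank ℚ K * (e : ℚ) := by
        intro e
        have := Algebra.trace_algebraMap (R := ℚ) (S := K) (e : ℚ)
        rw [map_natCast] at this
        rw [this, nsmul_eq_mul]
      rw [map_add, map_add, hx.2, hy.2, h3, h3, zero_add, zero_add] at h2
      have h4 : ((finrank ℚ K : ℕ) : ℚ) ≠ 0 := by exact_mod_cast hn.ne'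
      have h5 : (c : ℚ) = d := mul_left_cancel₀ h4 h2
      have h6 : c = d := by exact_mod_cast h5
      subst h6
      have h7 : (x : K) = (y : K) := add_right_cancel h1
      rw [RingOfIntegers.ext h7]
  rwa [Set.ncard_prod, Set.ncard_coe_finset, Nat.card_Icc, Nat.add_sub_cancel] at key

lemma small0_ncard (R : ℝ) (hR : 1 ≤ R) :
    ((small0 K R).ncard : ℝ) ≤ 7 ^ finrank ℚ K * R ^ (finrank ℚ K - 1) := by
  have hR0 : 0 ≤ R := by linarith
  have key := small0_mul (K := K) R hR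
  set L : ℕ := ⌈R⌉₊ with hL
  have hL1 : R ≤ L := Nat.le_ceil R
  have hL2 : (L : ℝ) < R + 1 := Nat.ceil_lt_add_one hR0
  have hLR : (L : ℝ) ≤ 2 * R := by linarith
  have hn : 0 < finrank ℚ K := finrank_pos
  have h1 := small_ncard (K := K) (R + L) (by positivity)
  have h2 : ((small0 K R).ncard : ℝ) * L ≤ (2 * (R + L) + 1) ^ finrank ℚ K := by
    refine le_trans ?_ h1
    exact_mod_cast key
  have h3 : (2 * (R + L) + 1) ^ finrank ℚ K ≤ (7 * R) ^ finrank ℚ K := by
    gcongr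
    linarith
  have h4 : ((small0 K R).ncard : ℝ) * R ≤ (7 * R) ^ finrank ℚ K :=
    (mul_le_mul_of_nonneg_left hL1 (by positivity)).trans (h2.trans h3)
  have h5 : (7 * R) ^ finrank ℚ K = (7 ^ finrank ℚ K * R ^ (finrank ℚ K - 1)) * R := by
    rw [mul_pow, mul_assoc, ← pow_succ, Nat.sub_add_cancel hn]
  rw [h5] at h4
  exact le_of_mul_le_mul_right h4 (by linarith)

end Pool.Agent.Helper79FreyD
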