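import Pool.Agent.Helper79_FreyD.OK

/-!
# Two interfaces
-/

namespace Pool.Agent.Helper79FreyD

open NumberField Module IntermediateField Polynomial

/-- The number fields of degree `n` and absolute discriminant at most `N` are generated by roots of
at most `C * N ^ E` polynomials. -/
def GenSet (n : ℕ) (E : ℝ) : Prop :=
  ∃ C : ℝ, 0 < C ∧ ∀ N : ℝ, 1 ≤ N → ∃ S : Finset ℤ[X],
    (∀ P ∈ S, P.Monic ∧ P.natDegree = n) ∧ (S.card : ℝ) ≤ C * N ^ E ∧
    ∀ (K : Type) [Field K] [NumberField K], finrank ℚ K = n → ((discr K).natAbs : ℝ) ≤ N →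
      ∃ y : 𝓞 K, ℚ⟮(y : K)⟯ = ⊤ ∧ minpoly ℤ (y : K) ∈ S

/-- The number of algebraic integers with conjugates at most `R` is at most
`C * R ^ n / √|D|`, as long as `|D| ≤ R ^ τ`. -/
def Ball (n : ℕ) (τ : ℝ) : Prop :=
  ∃ C : ℝ, 0 < C ∧ ∀ (K : Type) [Field K] [NumberField K], finrank ℚ K = n →
    ∀ R : ℝ, 1 ≤ R → ((discr K).natAbs : ℝ) ≤ R ^ τ →
      ((small K R).ncard : ℝ) ≤ C * R ^ n / √((discr K).natAbs : ℝ)

end Pool.Agent.Helper79FreyD
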