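import Pool.Agent.Helper79_FreyD.CountMain
import Pool.Agent.Helper79_FreyD.DefsG

/-!
# The sharp count, dyadic in the discriminant
-/

namespace Pool.Agent.Helper79FreyD

open NumberField NumberField.InfinitePlace Module IntermediateField Polynomial

/-- Monotonicity in the exponent. -/
lemma GenSet.mono {n : ℕ} {E E' : ℝ} (h : GenSet n E) (hE : E ≤ E') : GenSet n E' := by
  obtain ⟨C, hC, h⟩ := h
  refine ⟨C, hC, fun N hN => ?_⟩
  obtain ⟨S, h1, h2, h3⟩ := h N hN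
  refine ⟨S, h1, h2.trans ?_, h3⟩
  gcongr

/-- The bound of this folder. -/
theorem genSet_E (n : ℕ) (hn : 2 ≤ n) (hodd : Odd n) : GenSet n (E n) := by
  obtain ⟨C, hC, hprod⟩ := prod_bd n hn
  refine ⟨C, hC, fun N hN => ?_⟩
  obtain ⟨hfin, hcard⟩ := polys_card n (bd n N) (fun i _ => one_le_bd n hn N i)
  refine ⟨hfin.toFinset, ?_, ?_, ?_⟩
  · intro P hP
    rw [Set.Finite.mem_toFinset] at hP
    exact ⟨hP.1, hP.2.1⟩
  · rw [← Set.ncard_eq_toFinset_card _ hfin]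
    exact hcard.trans (hprod N hN)
  · intro K _ _ hK hD
    obtain ⟨y, hy1, hy2⟩ := exists_gen_polys K n hn hodd hK N hD
    exact ⟨y, hy1, by rwa [Set.Finite.mem_toFinset]⟩

/-- The trivial bound for balls. -/
lemma ball_zero (n : ℕ) : Ball n 0 := by
  refine ⟨3 ^ n, by positivity, fun K _ _ hK R hR hD => ?_⟩
  rw [Real.rpow_zero] at hD
  have h1 : 1 ≤ (discr K).natAbs :=
    Nat.one_le_iff_ne_zero.mpr (Int.natAbs_ne_zero.mpr (discr_ne_zero K))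
  have h2 : ((discr K).natAbs : ℝ) = 1 := le_antisymm hD (by exact_mod_cast h1)
  rw [h2, Real.sqrt_one, div_one, ← mul_pow]
  have h3 := small_ncard (K := K) R (by linarith)
  rw [hK] at h3
  refine h3.trans ?_
  gcongr
  linarith

lemma small0_ball {n : ℕ} {τ : ℝ} (hτ : 0 ≤ τ) (hn : 1 ≤ n) (hB : Ball n τ) : ∃ C : ℝ, 0 < C ∧
    ∀ (K : Type) [Field K] [NumberField K], finrank ℚ K = n →
    ∀ R : ℝ, 1 ≤ R → ((discr K).natAbs : ℝ) ≤ R ^ τ →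
      ((small0 K R).ncard : ℝ) ≤ C * R ^ (n - 1) / √((discr K).natAbs : ℝ) := by
  obtain ⟨C, hC, hB⟩ := hB
  refine ⟨C * 3 ^ n, by positivity, fun K _ _ hK R hR hD => ?_⟩
  have hR0 : 0 < R := by linarith
  have key := small0_mul (K := K) R hR
  set L : ℕ := ⌈R⌉₊ with hL
  have hL1 : R ≤ L := Nat.le_ceil R
  have hL2 : (L : ℝ) < R + 1 := Nat.ceil_lt_add_one hR0.le
  have hD' : ((discr K).natAbs : ℝ) ≤ (R + L) ^ τ :=
    hD.trans (Real.rpow_le_rpow hR0.le (by linarith) hτ)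
  have h1 := hB K hK (R + L) (by linarith) hD'
  have hD1 : 1 ≤ (discr K).natAbs :=
    Nat.one_le_iff_ne_zero.mpr (Int.natAbs_ne_zero.mpr (discr_ne_zero K))
  have hs : 0 < √((discr K).natAbs : ℝ) := by
    apply Real.sqrt_pos.mpr
    exact_mod_cast hD1
  have h2 : ((small0 K R).ncard : ℝ) * R ≤ C * (3 * R) ^ n / √((discr K).natAbs : ℝ) := by
    calc ((small0 K R).ncard : ℝ) * R ≤ ((small0 K R).ncard : ℝ) * L := by gcongr
      _ ≤ ((small K (R + L)).ncard : ℝ) := by exact_mod_cast key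
      _ ≤ C * (R + L) ^ n / √((discr K).natAbs : ℝ) := h1
      _ ≤ _ := by
          gcongr
          linarith
  have h3 : C * (3 * R) ^ n / √((discr K).natAbs : ℝ) =
      (C * 3 ^ n * R ^ (n - 1) / √((discr K).natAbs : ℝ)) * R := by
    have h4 : R ^ n = R ^ (n - 1) * R := by
      rw [← pow_succ, Nat.sub_add_cancel hn]
    rw [mul_pow, h4]
    ring
  rw [h3] at h2
  exact le_of_mul_le_mul_right h2 hR0

/-- The fibre, with a bound for the discriminant. -/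
def fibreD (n : ℕ) (R M T : ℝ) (P : ℤ[X]) : Set (Fin (n - 1) → ℤ) :=
  {a | ∃ _ : Fact (Irreducible (toQ P)), (M ≤ absDisc P ∧ (absDisc P : ℝ) ≤ T) ∧
    ∃ x ∈ small0 (AdjoinRoot (toQ P)) R, minpoly ℤ (x : AdjoinRoot (toQ P)) = mpoly n a}

lemma fibreD_card {n : ℕ} {τ : ℝ} {C : ℝ} (hC : 0 < C)
    (hB : ∀ (K : Type) [Field K] [NumberField K], finrank ℚ K = n →
    ∀ R : ℝ, 1 ≤ R → ((discr K).natAbs : ℝ) ≤ R ^ τ →
      ((small0 K R).ncard : ℝ) ≤ C * R ^ (n - 1) / √((discr K).natAbs : ℝ)) (R M : ℝ) (hR : 1 ≤ R)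
    (hM : 0 < M) (P : ℤ[X]) (hmon : P.Monic) (hdeg : P.natDegree = n) :
    (fibreD n R M (R ^ τ) P).Finite ∧
      ((fibreD n R M (R ^ τ) P).ncard : ℝ) ≤ C * R ^ (n - 1) / √M := by
  by_cases hP' : ∃ _ : Fact (Irreducible (toQ P)), (M ≤ absDisc P ∧ (absDisc P : ℝ) ≤ R ^ τ)
  · obtain ⟨hfact, hMP, hPT⟩ := hP'
    have hfin := small0_finite (K := AdjoinRoot (toQ P)) R (by linarith)
    have hsub : fibreD n R M (R ^ τ) P ⊆ (fun x : 𝓞 (AdjoinRoot (toQ P)) => fun i : Fin (n - 1) =>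
        (minpoly ℤ (x : AdjoinRoot (toQ P))).coeff i) '' small0 (AdjoinRoot (toQ P)) R := by
      rintro a ⟨_, _, x, hx, h⟩
      refine ⟨x, hx, ?_⟩
      ext i
      simp only
      rw [h, coeff_mpoly]
    refine ⟨(hfin.image _).subset hsub, ?_⟩
    have h1 := (Set.ncard_le_ncard hsub (hfin.image _)).trans (Set.ncard_image_le hfin)
    have h2 := hB (AdjoinRoot (toQ P)) (by rw [finrank_adjoinRoot P hmon, hdeg]) R hR hPT
    refine (by exact_mod_cast h1 : ((fibreD n R M (R ^ τ) P).ncard : ℝ) ≤ _).trans (h2.trans ?_)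
    have h3 : √M ≤ √((discr (AdjoinRoot (toQ P))).natAbs : ℝ) := Real.sqrt_le_sqrt hMP
    have h4 : 0 < √M := Real.sqrt_pos.mpr hM
    gcongr
  · have : fibreD n R M (R ^ τ) P = ∅ := by
      ext a
      simp only [Set.mem_empty_iff_false, iff_false]
      rintro ⟨h, h1, _⟩
      exact hP' ⟨h, h1⟩
    rw [this]
    refine ⟨Set.finite_empty, ?_⟩
    simp only [Set.ncard_empty, Nat.cast_zero]
    positivity

/-- Every polynomial lies in the fibre of the minimal polynomial of a generator, and the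
discriminants are the same. -/
lemma mem_fibreD (n : ℕ) (hn : 2 ≤ n) (a : Fin (n - 1) → ℤ) (H : ℝ) (hH : 0 < H)
    (ha : ∀ i, |(a i : ℝ)| ≤ H ^ (n - (i : ℕ))) [hf : Fact (Irreducible (toQ (mpoly n a)))]
    (y : 𝓞 (AdjoinRoot (toQ (mpoly n a)))) (hy : ℚ⟮(y : AdjoinRoot (toQ (mpoly n a)))⟯ = ⊤) :
    a ∈ fibre n (2 * H) (minpoly ℤ (y : AdjoinRoot (toQ (mpoly n a)))) ∧
    ∀ _ : Fact (Irreducible (toQ (minpoly ℤ (y : AdjoinRoot (toQ (mpoly n a)))))),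
      absDisc (minpoly ℤ (y : AdjoinRoot (toQ (mpoly n a)))) = absDisc (mpoly n a) := by
  refine ⟨mem_fibre n hn a H hH ha y hy, fun hfact => ?_⟩
  set f := mpoly n a with hfdef
  set P := minpoly ℤ (y : AdjoinRoot (toQ f)) with hP
  have hPQ : toQ P = minpoly ℚ (y : AdjoinRoot (toQ f)) := by
    rw [minpoly.isIntegrallyClosed_eq_field_fractions' ℚ y.isIntegral_coe]
    rfl
  have hyint : IsIntegral ℚ (y : AdjoinRoot (toQ f)) := Algebra.IsSeparable.isIntegral ℚ _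
  let e1 : AdjoinRoot (toQ P) ≃+* AdjoinRoot (minpoly ℚ (y : AdjoinRoot (toQ f))) :=
    (AdjoinRoot.algEquivOfEq ℚ _ _ hPQ).toRingEquiv
  let e2 : AdjoinRoot (minpoly ℚ (y : AdjoinRoot (toQ f))) ≃+*
      ℚ⟮(y : AdjoinRoot (toQ f))⟯ := (adjoinRootEquivAdjoin ℚ hyint).toRingEquiv
  let e3 : ℚ⟮(y : AdjoinRoot (toQ f))⟯ ≃+* AdjoinRoot (toQ f) :=
    ((IntermediateField.equivOfEq hy).trans IntermediateField.topEquiv).toRingEquiv
  let e : AdjoinRoot (toQ P) ≃+* AdjoinRoot (toQ f) := (e1.trans e2).trans e3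
  unfold absDisc
  rw [discr_eq_discr_of_ringEquiv _ e]

lemma mem_bad_discr {n : ℕ} {H N : ℝ} {a : Fin (n - 1) → ℤ} (ha : a ∈ bad n H N) :
    ∃ _ : Fact (Irreducible (toQ (mpoly n a))), 1 ≤ absDisc (mpoly n a) ∧
      (absDisc (mpoly n a) : ℝ) ≤ N := by
  obtain ⟨_, h, hD⟩ := ha
  refine ⟨h, ?_, hD⟩
  unfold absDisc
  exact Nat.one_le_iff_ne_zero.mpr (Int.natAbs_ne_zero.mpr (discr_ne_zero _))

lemma geom_le {q : ℝ} (hq : 1 < q) (J : ℕ) :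
    ∑ j ∈ Finset.range (J + 1), q ^ j ≤ q / (q - 1) * q ^ J := by
  have hq1 : 0 < q - 1 := by linarith
  rw [geom_sum_eq hq.ne', div_mul_eq_mul_div, pow_succ]
  gcongr
  linarith

/-- **The sharp count.** -/
theorem bad_card' {n : ℕ} (hn : 2 ≤ n) {E τ : ℝ} (hE : 1 / 2 < E) (hτ : 0 ≤ τ)
    (hG : GenSet n E) (hB : Ball n τ) : ∃ C : ℝ, 0 < C ∧ ∀ H N : ℝ, 1 ≤ H → 1 ≤ N →
    N ≤ H ^ τ → (bad n H N).Finite ∧
      ((bad n H N).ncard : ℝ) ≤ C * N ^ (E - 1 / 2) * H ^ (n - 1) := by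
  obtain ⟨C₁, hC₁, hG⟩ := hG
  obtain ⟨C₂, hC₂, hB⟩ := small0_ball hτ (by omega) hB
  set q : ℝ := 2 ^ (E - 1 / 2) with hq
  have hq1 : 1 < q := Real.one_lt_rpow one_lt_two (by linarith)
  have hq0 : 0 < q - 1 := by linarith
  refine ⟨C₁ * 2 ^ E * (C₂ * 2 ^ (n - 1)) * (q / (q - 1)), by positivity,
    fun H N hH hN hNH => ?_⟩
  have hH0 : 0 < H := by linarith
  have hN0 : 0 < N := by linarith
  -- the levels
  have hlev : ∀ j : ℕ, ∃ S : Finset ℤ[X], (∀ P ∈ S, P.Monic ∧ P.natDegree = n) ∧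
      (S.card : ℝ) ≤ C₁ * ((2 : ℝ) ^ (j + 1)) ^ E ∧
      ∀ (K : Type) [Field K] [NumberField K], finrank ℚ K = n →
        ((discr K).natAbs : ℝ) ≤ (2 : ℝ) ^ (j + 1) →
        ∃ y : 𝓞 K, ℚ⟮(y : K)⟯ = ⊤ ∧ minpoly ℤ (y : K) ∈ S := fun j =>
    hG _ (one_le_pow₀ one_le_two)
  choose S hS1 hS2 hS3 using hlev
  set J : ℕ := Nat.log 2 ⌊N⌋₊ with hJ
  have hfl : ⌊N⌋₊ ≠ 0 := (Nat.floor_pos.mpr hN).ne'
  have hJN : (2 : ℝ) ^ J ≤ N := by
    have h1 : 2 ^ J ≤ ⌊N⌋₊ := Nat.pow_log_le_self 2 hfl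
    calc (2 : ℝ) ^ J = ((2 ^ J : ℕ) : ℝ) := by push_cast; rfl
      _ ≤ (⌊N⌋₊ : ℝ) := by exact_mod_cast h1
      _ ≤ N := Nat.floor_le hN0.le
  have hR1 : 1 ≤ 2 * H := by linarith
  set U : ℕ → Set (Fin (n - 1) → ℤ) := fun j =>
    ⋃ P ∈ S j, fibreD n (2 * H) ((2 : ℝ) ^ j) ((2 * H) ^ τ) P with hU
  have hfib : ∀ j, ∀ P ∈ S j,
      (fibreD n (2 * H) ((2 : ℝ) ^ j) ((2 * H) ^ τ) P).Finite ∧
      ((fibreD n (2 * H) ((2 : ℝ) ^ j) ((2 * H) ^ τ) P).ncard : ℝ) ≤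
        C₂ * (2 * H) ^ (n - 1) / √((2 : ℝ) ^ j) := fun j P hP =>
    fibreD_card hC₂ hB (2 * H) ((2 : ℝ) ^ j) hR1 (by positivity) P (hS1 j P hP).1 (hS1 j P hP).2
  have hUfin : ∀ j, (U j).Finite := fun j =>
    (Finset.finite_toSet (S j)).biUnion fun P hP => (hfib j P hP).1
  have hUcard : ∀ j, ((U j).ncard : ℝ) ≤
      C₁ * 2 ^ E * (C₂ * 2 ^ (n - 1)) * H ^ (n - 1) * q ^ j := by
    intro j
    have h1 : ((U j).ncard : ℝ) ≤ ∑ P ∈ S j,
        ((fibreD n (2 * H) ((2 : ℝ) ^ j) ((2 * H) ^ τ) P).ncard : ℝ) := by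
      have h0 := Finset.set_ncard_biUnion_le (S j)
        (fun P => fibreD n (2 * H) ((2 : ℝ) ^ j) ((2 * H) ^ τ) P)
      calc ((U j).ncard : ℝ) ≤ ((∑ P ∈ S j,
          (fibreD n (2 * H) ((2 : ℝ) ^ j) ((2 * H) ^ τ) P).ncard : ℕ) : ℝ) := Nat.cast_le.mpr h0
        _ = _ := by rw [Nat.cast_sum]
    have h2 : ∑ P ∈ S j, ((fibreD n (2 * H) ((2 : ℝ) ^ j) ((2 * H) ^ τ) P).ncard : ℝ) ≤
        ∑ _P ∈ S j, C₂ * (2 * H) ^ (n - 1) / √((2 : ℝ) ^ j) :=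
      Finset.sum_le_sum fun P hP => (hfib j P hP).2
    rw [Finset.sum_const, nsmul_eq_mul] at h2
    have h3 : q ^ j = ((2 : ℝ) ^ j) ^ E / √((2 : ℝ) ^ j) := by
      rw [hq, Real.sqrt_eq_rpow, ← Real.rpow_sub (by positivity), ← Real.rpow_natCast,
        ← Real.rpow_mul zero_le_two, ← Real.rpow_natCast, ← Real.rpow_mul zero_le_two, mul_comm]
    have h4 : ((2 : ℝ) ^ (j + 1)) ^ E = 2 ^ E * ((2 : ℝ) ^ j) ^ E := by
      rw [pow_succ', Real.mul_rpow zero_le_two (by positivity)]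
    calc ((U j).ncard : ℝ) ≤ ((S j).card : ℝ) * (C₂ * (2 * H) ^ (n - 1) / √((2 : ℝ) ^ j)) :=
          h1.trans h2
      _ ≤ (C₁ * ((2 : ℝ) ^ (j + 1)) ^ E) * (C₂ * (2 * H) ^ (n - 1) / √((2 : ℝ) ^ j)) := by
          gcongr
          exact hS2 j
      _ = _ := by
          rw [h3, h4, mul_pow]
          ring
  have hsub : bad n H N ⊆ ⋃ j ∈ Finset.range (J + 1), U j := by
    intro a ha
    obtain ⟨hfact, hD1, hDN⟩ := mem_bad_discr ha
    set D := absDisc (mpoly n a) with hD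
    set j := Nat.log 2 D with hj
    have hD0 : D ≠ 0 := by omega
    have hjJ : j ≤ J := by
      apply Nat.log_mono_right
      exact Nat.le_floor hDN
    have hjD : 2 ^ j ≤ D := Nat.pow_log_le_self 2 hD0
    have hDj : D < 2 ^ (j + 1) := Nat.lt_pow_succ_log_self (by norm_num) D
    have hDj' : (D : ℝ) ≤ (2 : ℝ) ^ (j + 1) := by exact_mod_cast hDj.le
    obtain ⟨y, hy1, hy2⟩ := hS3 j (AdjoinRoot (toQ (mpoly n a)))
      (by rw [finrank_adjoinRoot _ (monic_mpoly n hn a), natDegree_mpoly n hn]) hDj'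
    obtain ⟨⟨hPf, x, hx1, hx2⟩, hPD⟩ := mem_fibreD n hn a H hH0 ha.1 y hy1
    rw [Set.mem_iUnion₂]
    refine ⟨j, by rw [Finset.mem_range]; omega, ?_⟩
    have h1 : (2 : ℝ) ^ j ≤ D := by exact_mod_cast hjD
    have h2 : (D : ℝ) ≤ (2 * H) ^ τ := by
      refine hDN.trans (hNH.trans ?_)
      exact Real.rpow_le_rpow hH0.le (by linarith) hτ
    rw [hD, ← hPD hPf] at h1 h2
    exact Set.mem_iUnion₂.mpr ⟨_, hy2, hPf, ⟨h1, h2⟩, x, hx1, hx2⟩
  have hfin' : (⋃ j ∈ Finset.range (J + 1), U j).Finite :=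
    (Finset.finite_toSet (Finset.range (J + 1))).biUnion fun j _ => hUfin j
  refine ⟨hfin'.subset hsub, ?_⟩
  have h1 : ((bad n H N).ncard : ℝ) ≤ ∑ j ∈ Finset.range (J + 1), ((U j).ncard : ℝ) := by
    have h2 := (Set.ncard_le_ncard hsub hfin').trans
      (Finset.set_ncard_biUnion_le (Finset.range (J + 1)) U)
    exact_mod_cast h2
  calc ((bad n H N).ncard : ℝ) ≤ ∑ j ∈ Finset.range (J + 1),
        C₁ * 2 ^ E * (C₂ * 2 ^ (n - 1)) * H ^ (n - 1) * q ^ j :=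
        h1.trans (Finset.sum_le_sum fun j _ => hUcard j)
    _ = C₁ * 2 ^ E * (C₂ * 2 ^ (n - 1)) * H ^ (n - 1) * ∑ j ∈ Finset.range (J + 1), q ^ j := by
        rw [Finset.mul_sum]
    _ ≤ C₁ * 2 ^ E * (C₂ * 2 ^ (n - 1)) * H ^ (n - 1) * (q / (q - 1) * q ^ J) := by
        gcongr
        exact geom_le hq1 J
    _ ≤ C₁ * 2 ^ E * (C₂ * 2 ^ (n - 1)) * H ^ (n - 1) * (q / (q - 1) * N ^ (E - 1 / 2)) := by
        have h5 : q ^ J ≤ N ^ (E - 1 / 2) := by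
          rw [hq, ← Real.rpow_natCast, ← Real.rpow_mul zero_le_two, mul_comm,
            Real.rpow_mul zero_le_two, Real.rpow_natCast]
          exact Real.rpow_le_rpow (by positivity) hJN (by linarith)
        gcongr
    _ = _ := by ring

end Pool.Agent.Helper79FreyD
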