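import Pool.Agent.Helper79_FreyD.Height
import Pool.Agent.Helper79_FreyD.Sharp

/-!
# The exceptional set
-/

namespace Pool.Agent.Helper79FreyD

open MeasureTheory Finset Polynomial
open scoped ComplexOrder

lemma sig_nonneg {m n : ℕ} (hm : 2 ≤ m) : 0 ≤ sig m n := by
  unfold sig
  apply sum_nonneg
  intro j _
  apply sum_nonneg
  intro i hi
  rw [Finset.mem_range] at hi
  have := num_lt (m := m) (n := n) (j := j) (p := i) (by omega) hi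
  linarith

lemma toC_separable (f : ℤ[X]) (hf : Irreducible (toQ f)) : (toC f).Separable := by
  have h1 : (toQ f).Separable := hf.separable
  have h2 := h1.map (f := algebraMap ℚ ℂ)
  have h3 : (toQ f).map (algebraMap ℚ ℂ) = toC f := by
    rw [Polynomial.map_map]
    congr 1
  rwa [h3] at h2

lemma absDisc_pos (f : ℤ[X]) [Fact (Irreducible (toQ f))] : 1 ≤ absDisc f := by
  unfold absDisc
  exact Nat.one_le_iff_ne_zero.mpr (Int.natAbs_ne_zero.mpr (NumberField.discr_ne_zero _))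

/-- The exceptional set. -/
def exc (m n : ℕ) (κ C₀ : ℝ) (H : ℕ) : Set (Fin (n - 1) → ℤ) :=
  {a | (∀ i, |a i| ≤ (H : ℤ) ^ (n - (i : ℕ))) ∧
    Irreducible (toQ (mpoly n a)) ∧ ¬ FreyHolds m κ C₀ (mpoly n a)}

/-- In the exceptional set the discriminant is small. -/
theorem exc_subset (m n : ℕ) (hm : 2 ≤ m) (hn : 2 ≤ n) :
    ∃ C₀ : ℝ, ∀ κ : ℝ, 0 < κ → ∀ H : ℕ, 1 ≤ H →
      exc m n κ C₀ H ⊆ bad n H ((H : ℝ) ^ (sig m n / (κ * ((m : ℝ) - 1)))) := by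
  obtain ⟨C₀, hC₀⟩ := height_mpoly m n (by omega) hn
  refine ⟨C₀, fun κ hκ H hH => ?_⟩
  have hH1 : (1 : ℝ) ≤ H := by exact_mod_cast hH
  have hH0 : (0 : ℝ) < H := by linarith
  have hm1 : (0 : ℝ) < (m : ℝ) - 1 := by
    have : (2 : ℝ) ≤ m := by exact_mod_cast hm
    linarith
  set t : ℝ := sig m n / (κ * ((m : ℝ) - 1)) with ht
  rintro a ⟨ha, hirr, hnot⟩
  have ha' : ∀ i, |(a i : ℝ)| ≤ (H : ℝ) ^ (n - (i : ℕ)) := by
    intro i
    exact_mod_cast ha i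
  refine ⟨ha', ⟨hirr⟩, ?_⟩
  have hfact : Fact (Irreducible (toQ (mpoly n a))) := ⟨hirr⟩
  obtain ⟨h1, h2⟩ := hC₀ a (toC_separable _ hirr)
  have h3 := h2 H hH1 ha'
  by_contra hcon
  rw [not_le] at hcon
  apply hnot
  refine ⟨⟨hirr⟩, h1, h3.trans (add_le_add_left ?_ _)⟩
  have h4 : t * Real.log H ≤ Real.log (absDisc (mpoly n a)) := by
    rw [← Real.log_rpow hH0]
    exact Real.log_le_log (by positivity) hcon.le
  have h5 : sig m n = κ * ((m : ℝ) - 1) * t := by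
    rw [ht]
    field_simp
  rw [Real.log_pow, Nat.cast_sub (by omega), Nat.cast_one, h5]
  calc κ * ((m : ℝ) - 1) * t * Real.log H = κ * ((m : ℝ) - 1) * (t * Real.log H) := by ring
    _ ≤ κ * ((m : ℝ) - 1) * Real.log (absDisc (mpoly n a)) := by gcongr
    _ = _ := by ring

/-- The exceptional set, all constants. -/
theorem main1 (m n : ℕ) (hm : 2 ≤ m) (hn : 3 ≤ n) (hodd : Odd n) :
    ∃ C₀ : ℝ, ∀ κ : ℝ, 0 < κ → ∃ C : ℝ, ∀ H : ℕ, 1 ≤ H →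
      ((exc m n κ C₀ H).ncard : ℝ) ≤
        C * (H : ℝ) ^ ((n : ℝ) - 1 + E n * (sig m n / (κ * ((m : ℝ) - 1)))) := by
  obtain ⟨C₀, hC₀⟩ := exc_subset m n hm (by omega)
  obtain ⟨C, hC, hbad⟩ := bad_card n (by omega) hodd
  refine ⟨C₀, fun κ hκ => ⟨C, fun H hH => ?_⟩⟩
  have hH1 : (1 : ℝ) ≤ H := by exact_mod_cast hH
  have hH0 : (0 : ℝ) < H := by linarith
  have hm1 : (0 : ℝ) < (m : ℝ) - 1 := by
    have : (2 : ℝ) ≤ m := by exact_mod_cast hm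
    linarith
  set t : ℝ := sig m n / (κ * ((m : ℝ) - 1)) with ht
  have ht0 : 0 ≤ t := div_nonneg (sig_nonneg hm) (by positivity)
  have hN : 1 ≤ (H : ℝ) ^ t := Real.one_le_rpow hH1 ht0
  obtain ⟨hfin, hcard⟩ := hbad H ((H : ℝ) ^ t) hH1 hN
  have h1 : ((exc m n κ C₀ H).ncard : ℝ) ≤ (bad n H ((H : ℝ) ^ t)).ncard :=
    Nat.cast_le.mpr (Set.ncard_le_ncard (hC₀ κ hκ H hH) hfin)
  refine h1.trans (hcard.trans (le_of_eq ?_))
  rw [← Real.rpow_mul hH0.le, mul_assoc, ← Real.rpow_natCast, ← Real.rpow_add hH0,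
    Nat.cast_sub (by omega), Nat.cast_one]
  congr 2
  ring

/-- The exceptional set, sharp bound. -/
theorem main2 (m n : ℕ) (hm : 2 ≤ m) (hn : 2 ≤ n) :
    ∃ C₀ : ℝ, ∀ E τ : ℝ, 1 / 2 < E → 0 ≤ τ → GenSet n E → Ball n τ →
      ∀ κ : ℝ, 0 < κ → sig m n ≤ τ * (κ * ((m : ℝ) - 1)) → ∃ C : ℝ, ∀ H : ℕ, 1 ≤ H →
      ((exc m n κ C₀ H).ncard : ℝ) ≤
        C * (H : ℝ) ^ ((n : ℝ) - 1 + (E - 1 / 2) * (sig m n / (κ * ((m : ℝ) - 1)))) := by
  obtain ⟨C₀, hC₀⟩ := exc_subset m n hm hn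
  refine ⟨C₀, fun E τ hE hτ hG hB κ hκ hsig => ?_⟩
  obtain ⟨C, hC, hbad⟩ := bad_card' hn hE hτ hG hB
  refine ⟨C, fun H hH => ?_⟩
  have hH1 : (1 : ℝ) ≤ H := by exact_mod_cast hH
  have hH0 : (0 : ℝ) < H := by linarith
  have hm1 : (0 : ℝ) < (m : ℝ) - 1 := by
    have : (2 : ℝ) ≤ m := by exact_mod_cast hm
    linarith
  set t : ℝ := sig m n / (κ * ((m : ℝ) - 1)) with ht
  have ht0 : 0 ≤ t := div_nonneg (sig_nonneg hm) (by positivity)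
  have htτ : t ≤ τ := by
    rw [ht, div_le_iff₀ (by positivity)]
    exact hsig
  have hN : 1 ≤ (H : ℝ) ^ t := Real.one_le_rpow hH1 ht0
  obtain ⟨hfin, hcard⟩ := hbad H ((H : ℝ) ^ t) hH1 hN (Real.rpow_le_rpow_of_exponent_le hH1 htτ)
  have h1 : ((exc m n κ C₀ H).ncard : ℝ) ≤ (bad n H ((H : ℝ) ^ t)).ncard :=
    Nat.cast_le.mpr (Set.ncard_le_ncard (hC₀ κ hκ H hH) hfin)
  refine h1.trans (hcard.trans (le_of_eq ?_))
  rw [← Real.rpow_mul hH0.le, mul_assoc, ← Real.rpow_natCast, ← Real.rpow_add hH0,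
    Nat.cast_sub (by omega), Nat.cast_one]
  congr 2
  ring

end Pool.Agent.Helper79FreyD
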