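import Pool.Agent.Helper79_FreyD.Gen
import Pool.Agent.Helper79_FreyD.Main
import Pool.Agent.Helper43_Frey.Ball
import Pool.Agent.THX.Stmts
import Pool.Agent.Helper20_FreyS.Height

/-!
# The final statement
-/

namespace Pool.Agent.Helper79FreyD

open NumberField Module Polynomial

lemma genSet_of_thx {n : ℕ} {E : ℝ} (h : THX.GenSet n E) : GenSet n E := by
  obtain ⟨C, h⟩ := h
  refine ⟨max C 1, by positivity, fun N hN => ?_⟩
  obtain ⟨S, hfin, hcard, hmon, hK⟩ := h N hN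
  refine ⟨hfin.toFinset, fun P hP => hmon P (by rwa [Set.Finite.mem_toFinset] at hP), ?_, ?_⟩
  · rw [← Set.ncard_eq_toFinset_card _ hfin]
    refine hcard.trans ?_
    have hN0 : 0 ≤ N ^ E := Real.rpow_nonneg (by linarith) _
    exact mul_le_mul_of_nonneg_right (le_max_left _ _) hN0
  · intro K _ _ h1 h2
    obtain ⟨y, hy1, hy2⟩ := hK K h1 (by rw [abs_discr]; exact h2)
    exact ⟨y, hy1, by rwa [Set.Finite.mem_toFinset]⟩

/-- An exponent for the number of number fields of degree `n` and bounded discriminant: the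
smaller one of `(n + 2) (n - 1) / (4 (n - n / q))`, where `q` is the least prime factor of `n`, and
`r (2 r + 1)`, where `r` is the least integer with `n ≤ 2 ^ r`. -/
noncomputable def fieldExp (n : ℕ) : ℝ :=
  min (((n : ℝ) + 2) * (n - 1) / (4 * ((n : ℝ) - n / n.minFac)))
    ((Nat.clog 2 n : ℝ) * (2 * Nat.clog 2 n + 1))

lemma E₁_eq (n : ℕ) : E₁ n = ((n : ℝ) + 2) * (n - 1) / (4 * ((n : ℝ) - n / n.minFac)) := by
  unfold E₁
  rw [Nat.cast_sub (Nat.div_le_self _ _), Nat.cast_div (Nat.minFac_dvd n)]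
  exact_mod_cast (Nat.minFac_pos n).ne'

lemma half_lt_fieldExp (n : ℕ) (hn : 3 ≤ n) : 1 / 2 < fieldExp n := by
  have hn' : (3 : ℝ) ≤ n := by exact_mod_cast hn
  unfold fieldExp
  rw [lt_min_iff]
  constructor
  · have hq : (0 : ℝ) < n.minFac := by exact_mod_cast Nat.minFac_pos n
    have hq2 : (2 : ℝ) ≤ n.minFac := by
      exact_mod_cast (Nat.minFac_prime (by omega)).two_le
    have h1 : (n : ℝ) / n.minFac ≤ n / 2 := by gcongr
    have h2 : 0 ≤ (n : ℝ) / n.minFac := by positivity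
    rw [lt_div_iff₀ (by linarith)]
    nlinarith
  · have hr : 2 ≤ Nat.clog 2 n := by
      have h1 : 1 < Nat.clog 2 n := by
        rw [Nat.lt_clog_iff_pow_lt (by norm_num)]
        omega
      omega
    have hr' : (2 : ℝ) ≤ Nat.clog 2 n := by exact_mod_cast hr
    nlinarith

/-- The exponent. -/
theorem genSet_fieldExp (hthx : THX.GstStmt) (n : ℕ) (hn : 3 ≤ n) (E : ℝ) (hE : fieldExp n < E) :
    GenSet n E := by
  unfold fieldExp at hE
  rw [min_lt_iff] at hE
  rcases hE with h | h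
  · rw [← E₁_eq] at h
    exact (genSet_E₁ n (by omega)).mono h.le
  · have h1 := hthx n (Nat.clog 2 n) (by omega)
      (Nat.clog_pos (by norm_num) (by omega)) (Nat.le_pow_clog (by norm_num) n)
      (E - (Nat.clog 2 n : ℝ) * (2 * Nat.clog 2 n + 1)) (by linarith)
    rw [add_sub_cancel] at h1
    exact genSet_of_thx h1

lemma num_eq (m n j : ℕ) : num m n j = Helper20FreyS.num m n j := rfl

lemma sig_eq_sig (m n : ℕ) : sig m n = Helper20FreyS.sig m n := rfl

/-- The exceptional set is small. -/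
theorem final (hthx : THX.GstStmt) (m n : ℕ) (hm : 2 ≤ m) (hn : 3 ≤ n) :
    ∃ C₀ : ℝ, ∀ κ : ℝ, ((n : ℝ) - 1) / 6 ≤ κ →
      ∀ E : ℝ, fieldExp n < E → ∃ C : ℝ, ∀ H : ℕ, 1 ≤ H →
        ({a : Fin (n - 1) → ℤ | (∀ i, |a i| ≤ (H : ℤ) ^ (n - (i : ℕ))) ∧
          Irreducible (toQ (mpoly n a)) ∧ ¬ FreyHolds m κ C₀ (mpoly n a)}.ncard : ℝ) ≤
        C * (H : ℝ) ^ ((n : ℝ) - 1 + (E - 1 / 2) * (sig m n / (κ * (m - 1)))) := by
  have hn' : (3 : ℝ) ≤ n := by exact_mod_cast hn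
  have hm' : (2 : ℝ) ≤ m := by exact_mod_cast hm
  obtain ⟨C₀, h⟩ := main2 m n hm (by omega)
  refine ⟨C₀, fun κ hκ E hE => ?_⟩
  have hκ0 : 0 < κ := lt_of_lt_of_le (by linarith) hκ
  refine h E n ((half_lt_fieldExp n hn).trans hE) (by positivity) (genSet_fieldExp hthx n hn E hE)
    (Helper43Frey.ball_full n (by omega)) κ hκ0 ?_
  rw [sig_eq_sig]
  have h1 := (Helper20FreyS.sig_lt hm hn).le
  refine h1.trans ?_
  have h2 : (1 : ℝ) / 3 * (((m : ℝ) - 1) * ((n : ℝ) * (n - 1) / 2)) =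
      n * ((((n : ℝ) - 1) / 6) * (m - 1)) := by ring
  rw [h2]
  have h3 : (0 : ℝ) ≤ (m : ℝ) - 1 := by linarith
  gcongr

end Pool.Agent.Helper79FreyD
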