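import Pool.Agent.Helper79_FreyD.Defs

/-!
# Monic polynomials without term of degree `n - 1`
-/

namespace Pool.Agent.Helper79FreyD

open Polynomial

lemma degree_tail (n : ℕ) (a : Fin (n - 1) → ℤ) :
    (∑ i : Fin (n - 1), C (a i) * X ^ (i : ℕ) : ℤ[X]).degree < ((n - 1 : ℕ) : WithBot ℕ) := by
  refine (degree_sum_le _ _).trans_lt ?_
  rw [Finset.sup_lt_iff (WithBot.bot_lt_coe _)]
  intro i _
  refine (degree_C_mul_X_pow_le _ _).trans_lt ?_
  exact_mod_cast i.2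

lemma coeff_tail (n : ℕ) (a : Fin (n - 1) → ℤ) (k : ℕ) :
    (∑ i : Fin (n - 1), C (a i) * X ^ (i : ℕ) : ℤ[X]).coeff k =
      if h : k < n - 1 then a ⟨k, h⟩ else 0 := by
  rw [finsetSum_coeff]
  simp only [coeff_C_mul, coeff_X_pow, mul_ite, mul_one, mul_zero]
  split_ifs with h
  · rw [Finset.sum_eq_single ⟨k, h⟩]
    · simp
    · intro i _ hi
      rw [if_neg]
      intro hk
      exact hi (Fin.ext hk.symm)
    · intro h1
      exact absurd (Finset.mem_univ _) h1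
  · apply Finset.sum_eq_zero
    intro i _
    rw [if_neg]
    intro hk
    exact h (hk ▸ i.2)

lemma coeff_mpoly (n : ℕ) (a : Fin (n - 1) → ℤ) (i : Fin (n - 1)) :
    (mpoly n a).coeff i = a i := by
  unfold mpoly
  have := i.2
  rw [coeff_add, coeff_tail, coeff_X_pow, if_neg (by omega), dif_pos i.2, zero_add]

lemma coeff_mpoly_pred (n : ℕ) (hn : 2 ≤ n) (a : Fin (n - 1) → ℤ) :
    (mpoly n a).coeff (n - 1) = 0 := by
  unfold mpoly
  rw [coeff_add, coeff_tail, coeff_X_pow, if_neg (by omega), dif_neg (lt_irrefl _), zero_add]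

lemma monic_mpoly (n : ℕ) (hn : 2 ≤ n) (a : Fin (n - 1) → ℤ) : (mpoly n a).Monic := by
  unfold mpoly
  apply monic_X_pow_add
  refine (degree_tail n a).trans ?_
  exact_mod_cast (by omega : n - 1 < n)

lemma natDegree_mpoly (n : ℕ) (hn : 2 ≤ n) (a : Fin (n - 1) → ℤ) :
    (mpoly n a).natDegree = n := by
  unfold mpoly
  have h1 : (∑ i : Fin (n - 1), C (a i) * X ^ (i : ℕ) : ℤ[X]).degree < ((n : ℕ) : WithBot ℕ) := by
    refine (degree_tail n a).trans ?_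
    exact_mod_cast (by omega : n - 1 < n)
  rw [natDegree_add_eq_left_of_degree_lt, natDegree_X_pow]
  rwa [degree_X_pow]

lemma nextCoeff_mpoly (n : ℕ) (hn : 2 ≤ n) (a : Fin (n - 1) → ℤ) :
    (mpoly n a).nextCoeff = 0 := by
  rw [nextCoeff_of_natDegree_pos (by rw [natDegree_mpoly n hn]; omega), natDegree_mpoly n hn,
    coeff_mpoly_pred n hn]

lemma eval_mpoly (n : ℕ) (a : Fin (n - 1) → ℤ) (z : ℂ) :
    eval₂ (Int.castRingHom ℂ) z (mpoly n a) = z ^ n + ∑ i : Fin (n - 1), (a i : ℂ) * z ^ (i : ℕ) := by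
  unfold mpoly
  rw [eval₂_add, eval₂_X_pow, eval₂_finsetSum]
  congr 1
  apply Finset.sum_congr rfl
  intro i _
  rw [eval₂_mul, eval₂_C, eval₂_X_pow, eq_intCast]

lemma sum_two_pow (n : ℕ) (hn : 1 ≤ n) :
    ∑ i : Fin (n - 1), ((1 : ℝ) / 2) ^ (n - (i : ℕ)) ≤ 1 / 2 - (1 / 2) ^ n := by
  obtain ⟨k, rfl⟩ : ∃ k, n = k + 1 := ⟨n - 1, by omega⟩
  rw [Nat.add_sub_cancel]
  induction k with
  | zero => simp
  | succ k ih =>
    rw [Fin.sum_univ_succ]
    have h1 : ∑ i : Fin k, ((1 : ℝ) / 2) ^ (k + 1 + 1 - ((Fin.succ i : Fin (k + 1)) : ℕ)) =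
        ∑ i : Fin k, ((1 : ℝ) / 2) ^ (k + 1 - (i : ℕ)) := by
      apply Finset.sum_congr rfl
      intro i _
      rw [Fin.val_succ]
      congr 1
      omega
    rw [h1]
    have := ih (by omega)
    simp only [Fin.val_zero, Nat.sub_zero]
    have h2 : ((1 : ℝ) / 2) ^ (k + 1) = 2 * (1 / 2) ^ (k + 1 + 1) := by ring
    linarith

/-- The roots are at most `2 H`. -/
lemma root_le (n : ℕ) (hn : 2 ≤ n) (a : Fin (n - 1) → ℤ) (H : ℝ) (hH : 0 < H)
    (ha : ∀ i, |(a i : ℝ)| ≤ H ^ (n - (i : ℕ))) (z : ℂ)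
    (hz : eval₂ (Int.castRingHom ℂ) z (mpoly n a) = 0) : ‖z‖ ≤ 2 * H := by
  by_contra hcon
  rw [not_le] at hcon
  have hr : 0 < ‖z‖ := by linarith
  rw [eval_mpoly] at hz
  have h1 : z ^ n = -∑ i : Fin (n - 1), (a i : ℂ) * z ^ (i : ℕ) := eq_neg_of_add_eq_zero_left hz
  have h2 : ‖z‖ ^ n ≤ ∑ i : Fin (n - 1), ‖z‖ ^ n * (1 / 2) ^ (n - (i : ℕ)) := by
    calc ‖z‖ ^ n = ‖z ^ n‖ := (norm_pow _ _).symm
      _ = ‖∑ i : Fin (n - 1), (a i : ℂ) * z ^ (i : ℕ)‖ := by rw [h1, norm_neg]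
      _ ≤ ∑ i : Fin (n - 1), ‖(a i : ℂ) * z ^ (i : ℕ)‖ := norm_sum_le _ _
      _ ≤ ∑ i : Fin (n - 1), ‖z‖ ^ n * (1 / 2) ^ (n - (i : ℕ)) := by
          apply Finset.sum_le_sum
          intro i _
          have hi := i.2
          rw [norm_mul, norm_pow, Complex.norm_intCast]
          calc |(a i : ℝ)| * ‖z‖ ^ (i : ℕ) ≤ (‖z‖ * (1 / 2)) ^ (n - (i : ℕ)) * ‖z‖ ^ (i : ℕ) := by
                gcongr
                exact (ha i).trans (pow_le_pow_left₀ hH.le (by linarith) _)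
            _ = ‖z‖ ^ n * (1 / 2) ^ (n - (i : ℕ)) := by
                rw [mul_pow, mul_right_comm, ← pow_add]
                congr 2
                omega
  rw [← Finset.mul_sum] at h2
  have h3 := sum_two_pow n (by omega)
  have h4 : 0 < ‖z‖ ^ n := by positivity
  have h5 : (0 : ℝ) < (1 / 2) ^ n := by positivity
  nlinarith

/-- On the disc of radius `ρ` the polynomial is at most `n ρ ^ n`. -/
lemma norm_mpoly_le (n : ℕ) (hn : 2 ≤ n) (a : Fin (n - 1) → ℤ) (ρ : ℝ) (hρ : 0 < ρ)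
    (ha : ∀ i, |(a i : ℝ)| ≤ ρ ^ (n - (i : ℕ))) (z : ℂ) (hz : ‖z‖ ≤ ρ) :
    ‖eval₂ (Int.castRingHom ℂ) z (mpoly n a)‖ ≤ n * ρ ^ n := by
  rw [eval_mpoly]
  refine (norm_add_le _ _).trans ?_
  have h1 : ‖z ^ n‖ ≤ ρ ^ n := by
    rw [norm_pow]
    gcongr
  have h2 : ‖∑ i : Fin (n - 1), (a i : ℂ) * z ^ (i : ℕ)‖ ≤ ∑ _i : Fin (n - 1), ρ ^ n := by
    refine (norm_sum_le _ _).trans (Finset.sum_le_sum fun i _ => ?_)
    have hi := i.2
    rw [norm_mul, norm_pow, Complex.norm_intCast]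
    calc |(a i : ℝ)| * ‖z‖ ^ (i : ℕ) ≤ ρ ^ (n - (i : ℕ)) * ρ ^ (i : ℕ) := by
          gcongr
          exact ha i
      _ = ρ ^ n := by
          rw [← pow_add]
          congr 1
          omega
  rw [Finset.sum_const, Finset.card_univ, Fintype.card_fin, nsmul_eq_mul,
    Nat.cast_sub (by omega), Nat.cast_one] at h2
  linarith

end Pool.Agent.Helper79FreyD
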