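import Pool.Agent.Helper79_FreyD.Mink

/-!
# The minimal polynomials of the small generators
-/

namespace Pool.Agent.Helper79FreyD

open NumberField NumberField.InfinitePlace Module IntermediateField Polynomial
open scoped NNReal ENNReal

/-- Monic polynomials of degree `n` with bounded coefficients. -/
def polys (n : ℕ) (b : ℕ → ℝ) : Set ℤ[X] :=
  {P | P.Monic ∧ P.natDegree = n ∧ ∀ i, i < n → |(P.coeff i : ℝ)| ≤ b i}

lemma polys_card (n : ℕ) (b : ℕ → ℝ) (hb : ∀ i, i < n → 1 ≤ b i) :
    (polys n b).Finite ∧ ((polys n b).ncard : ℝ) ≤ ∏ i ∈ Finset.range n, (3 * b i) := by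
  classical
  set T : Finset (Fin n → ℤ) := Fintype.piFinset fun i : Fin n => Finset.Icc (-⌊b i⌋) ⌊b i⌋ with hT
  have hmaps : Set.MapsTo (fun P : ℤ[X] => fun i : Fin n => P.coeff i) (polys n b) T := by
    intro P hP
    rw [Finset.mem_coe, hT, Fintype.mem_piFinset]
    intro i
    rw [Finset.mem_Icc, ← abs_le, Int.le_floor, Int.cast_abs]
    exact hP.2.2 i i.2
  have hinj : Set.InjOn (fun P : ℤ[X] => fun i : Fin n => P.coeff i) (polys n b) := by
    intro P hP Q hQ hPQ
    ext i
    rcases lt_trichotomy i n with h | h | h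
    · exact congrFun hPQ ⟨i, h⟩
    · rw [h]
      have h1 := hP.1.coeff_natDegree
      have h2 := hQ.1.coeff_natDegree
      rw [hP.2.1] at h1
      rw [hQ.2.1] at h2
      rw [h1, h2]
    · rw [coeff_eq_zero_of_natDegree_lt (by rw [hP.2.1]; exact h),
        coeff_eq_zero_of_natDegree_lt (by rw [hQ.2.1]; exact h)]
  have hfin : (polys n b).Finite :=
    Set.Finite.of_injOn hmaps hinj (Finset.finite_toSet T)
  refine ⟨hfin, ?_⟩
  have h1 := Set.ncard_le_ncard_of_injOn _ hmaps hinj (Finset.finite_toSet T)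
  rw [Set.ncard_coe_finset, hT, Fintype.card_piFinset] at h1
  calc ((polys n b).ncard : ℝ) ≤ ((∏ i : Fin n, (Finset.Icc (-⌊b i⌋) ⌊b i⌋).card : ℕ) : ℝ) := by
        exact_mod_cast h1
    _ ≤ ∏ i : Fin n, (3 * b i) := by
        push_cast
        apply Finset.prod_le_prod
        · intro i _
          positivity
        · intro i _
          have hbi := hb i i.2
          have hf : 0 ≤ ⌊b i⌋ := by
            rw [Int.le_floor]
            push_cast
            linarith
          rw [Int.card_Icc]
          have h2 : (((⌊b i⌋ + 1 - -⌊b i⌋).toNat : ℕ) : ℝ) = 2 * (⌊b i⌋ : ℝ) + 1 := by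
            have h3 : ((⌊b i⌋ + 1 - -⌊b i⌋).toNat : ℤ) = 2 * ⌊b i⌋ + 1 := by
              rw [Int.toNat_of_nonneg (by omega)]
              ring
            exact_mod_cast h3
          rw [h2]
          have := Int.floor_le (b i)
          linarith
    _ = ∏ i ∈ Finset.range n, (3 * b i) := by
        rw [Finset.prod_range]

variable {K : Type*} [Field K] [NumberField K]

lemma minpoly_map (a : 𝓞 K) :
    (minpoly ℤ (a : K)).map (Int.castRingHom ℂ) = (minpoly ℚ (a : K)).map (algebraMap ℚ ℂ) := by
  rw [minpoly.isIntegrallyClosed_eq_field_fractions' ℚ a.isIntegral_coe, Polynomial.map_map]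
  congr 1

lemma minpoly_degree (a : 𝓞 K) (h : ℚ⟮(a : K)⟯ = ⊤) :
    (minpoly ℤ (a : K)).natDegree = finrank ℚ K := by
  rw [Field.primitive_element_iff_minpoly_natDegree_eq,
    minpoly.isIntegrallyClosed_eq_field_fractions' ℚ a.isIntegral_coe,
    (minpoly.monic a.isIntegral_coe).natDegree_map] at h
  exact h

lemma roots_minpoly (a : 𝓞 K) {z : ℂ}
    (hz : z ∈ ((minpoly ℤ (a : K)).map (Int.castRingHom ℂ)).roots) :
    ∃ φ : K →+* ℂ, φ (a : K) = z := by
  classical
  rw [minpoly_map, ← Multiset.mem_toFinset] at hz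
  obtain ⟨φ, h⟩ := (Embeddings.range_eval_eq_rootSet_minpoly K ℂ (a : K)).symm.subset hz
  exact ⟨φ, h⟩

lemma nodup_roots_minpoly (a : 𝓞 K) :
    ((minpoly ℤ (a : K)).map (Int.castRingHom ℂ)).roots.Nodup := by
  rw [minpoly_map]
  apply nodup_roots
  have h1 : (minpoly ℚ (a : K)).Separable :=
    (minpoly.irreducible (Algebra.IsSeparable.isIntegral ℚ (a : K))).separable
  exact h1.map

/-- The generator with one large conjugate has a small minimal polynomial. -/
theorem coeff_gen {w₀ : InfinitePlace K} (hw₀ : IsReal w₀) (a : 𝓞 K) (h : ℚ⟮(a : K)⟯ = ⊤)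
    (h0 : w₀ (a : K) ≤ mB K) (h1 : ∀ w, w ≠ w₀ → w (a : K) ≤ 1) :
    minpoly ℤ (a : K) ∈ polys (finrank ℚ K) (fun _ => 2 ^ finrank ℚ K * mB K) := by
  classical
  have hmon := minpoly.monic a.isIntegral_coe
  have hB : (1 : ℝ) ≤ mB K := by exact_mod_cast one_le_mB K
  refine ⟨hmon, minpoly_degree a h, fun i hi => ?_⟩
  have h2 : |((minpoly ℤ (a : K)).coeff i : ℝ)| =
      ‖((minpoly ℤ (a : K)).map (Int.castRingHom ℂ)).coeff i‖ := by
    rw [coeff_map, eq_intCast, Complex.norm_intCast]
  rw [h2]
  refine (norm_coeff_le_choose_mul_mahlerMeasure _ _).trans ?_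
  have h3 : ((minpoly ℤ (a : K)).map (Int.castRingHom ℂ)).mahlerMeasure ≤ mB K := by
    rw [mahlerMeasure_eq_leadingCoeff_mul_prod_roots, (hmon.map _).leadingCoeff, norm_one, one_mul]
    have h4 : ((((minpoly ℤ (a : K)).map (Int.castRingHom ℂ)).roots).map
        (fun z => max 1 ‖z‖)).prod =
        ∏ z ∈ ((minpoly ℤ (a : K)).map (Int.castRingHom ℂ)).roots.toFinset, max 1 ‖z‖ := by
      rw [Finset.prod, Multiset.toFinset_val, (nodup_roots_minpoly a).dedup]
    rw [h4]
    calc ∏ z ∈ ((minpoly ℤ (a : K)).map (Int.castRingHom ℂ)).roots.toFinset, max 1 ‖z‖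
        ≤ ∏ z ∈ ((minpoly ℤ (a : K)).map (Int.castRingHom ℂ)).roots.toFinset,
          (if z = w₀.embedding (a : K) then (mB K : ℝ) else 1) := by
          apply Finset.prod_le_prod
          · intro z _
            positivity
          · intro z hz
            rw [Multiset.mem_toFinset] at hz
            obtain ⟨φ, rfl⟩ := roots_minpoly a hz
            by_cases hφ : InfinitePlace.mk φ = w₀
            · have h5 : φ = w₀.embedding := by
                have h6 : InfinitePlace.mk w₀.embedding = InfinitePlace.mk φ := by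
                  rw [hφ, mk_embedding]
                rw [mk_eq_iff, conjugate_embedding_eq_of_isReal hw₀, or_self] at h6
                exact h6.symm
              rw [h5, if_pos rfl, norm_embedding_eq]
              exact max_le hB h0
            · have h5 := h1 _ hφ
              rw [InfinitePlace.apply] at h5
              rw [max_eq_left h5]
              split_ifs
              · exact hB
              · exact le_rfl
      _ ≤ mB K := by
          rw [Finset.prod_ite_eq']
          split_ifs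
          · exact le_rfl
          · exact hB
  apply mul_le_mul _ h3 (mahlerMeasure_nonneg _) (by positivity)
  have h5 : ((minpoly ℤ (a : K)).map (Int.castRingHom ℂ)).natDegree = finrank ℚ K := by
    rw [hmon.natDegree_map, minpoly_degree a h]
  rw [h5]
  exact_mod_cast Nat.choose_le_two_pow _ _

/-- The generator with one small conjugate has a small minimal polynomial. -/
theorem coeff_gen_prime (hp : 1 < finrank ℚ K) {w₀ : InfinitePlace K}
    (a : 𝓞 K) (h : ℚ⟮(a : K)⟯ = ⊤)
    (h0 : w₀ (a : K) ≤ 1) (h1 : ∀ w, w ≠ w₀ → w (a : K) ≤ mC K) :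
    minpoly ℤ (a : K) ∈ polys (finrank ℚ K)
      (fun i => 2 ^ finrank ℚ K * (mC K : ℝ) ^ min (finrank ℚ K - i) (finrank ℚ K - 1)) := by
  classical
  have hmon := minpoly.monic a.isIntegral_coe
  have hC : (1 : ℝ) ≤ mC K := by exact_mod_cast one_le_mC K hp
  refine ⟨hmon, minpoly_degree a h, fun i hi => ?_⟩
  have h2 : |((minpoly ℤ (a : K)).coeff i : ℝ)| =
      ‖((minpoly ℤ (a : K)).map (Int.castRingHom ℂ)).coeff i‖ := by
    rw [coeff_map, eq_intCast, Complex.norm_intCast]
  have hall : ∀ φ : K →+* ℂ, ‖φ (a : K)‖ ≤ mC K := by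
    intro φ
    have h3 : ‖φ (a : K)‖ = InfinitePlace.mk φ (a : K) := by rw [InfinitePlace.apply]
    rw [h3]
    by_cases hφ : InfinitePlace.mk φ = w₀
    · rw [hφ]
      exact h0.trans hC
    · exact h1 _ hφ
  rcases Nat.eq_zero_or_pos i with hi0 | hi0
  · subst hi0
    simp only
    rw [h2, min_eq_right (by omega)]
    have h3 : ‖((minpoly ℤ (a : K)).map (Int.castRingHom ℂ)).coeff 0‖ =
        ∏ z ∈ ((minpoly ℤ (a : K)).map (Int.castRingHom ℂ)).roots.toFinset, ‖z‖ := by
      rw [(IsAlgClosed.splits _).coeff_zero_eq_prod_roots_of_monic (hmon.map _), norm_mul,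
        norm_pow, norm_neg, norm_one, one_pow, one_mul]
      have h4 : ∏ z ∈ ((minpoly ℤ (a : K)).map (Int.castRingHom ℂ)).roots.toFinset, ‖z‖ =
          (((minpoly ℤ (a : K)).map (Int.castRingHom ℂ)).roots.map (fun z => ‖z‖)).prod := by
        rw [Finset.prod, Multiset.toFinset_val, (nodup_roots_minpoly a).dedup]
      rw [h4]
      exact map_multiset_prod (normHom : ℂ →*₀ ℝ) _
    have hcard : ((minpoly ℤ (a : K)).map (Int.castRingHom ℂ)).roots.toFinset.card =
        finrank ℚ K := by
      rw [Multiset.toFinset_card_of_nodup (nodup_roots_minpoly a),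
        splits_iff_card_roots.mp (IsAlgClosed.splits _), hmon.natDegree_map, minpoly_degree a h]
    have hmem : w₀.embedding (a : K) ∈
        ((minpoly ℤ (a : K)).map (Int.castRingHom ℂ)).roots.toFinset := by
      rw [Multiset.mem_toFinset, mem_roots (hmon.map _).ne_zero, IsRoot.def, eval_map]
      have h4 : eval₂ ((w₀.embedding).comp (algebraMap ℤ K)) (w₀.embedding (a : K))
          (minpoly ℤ (a : K)) = 0 := by
        rw [← hom_eval₂, ← aeval_def, minpoly.aeval, map_zero]
      have h5 : (w₀.embedding).comp (algebraMap ℤ K) = Int.castRingHom ℂ := RingHom.ext_int _ _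
      rwa [h5] at h4
    rw [h3, ← Finset.mul_prod_erase _ _ hmem]
    have h7 : ‖w₀.embedding (a : K)‖ ≤ 1 := by
      rw [norm_embedding_eq]
      exact h0
    have h8 : ∏ z ∈ (((minpoly ℤ (a : K)).map (Int.castRingHom ℂ)).roots.toFinset).erase
        (w₀.embedding (a : K)), ‖z‖ ≤ (mC K : ℝ) ^ (finrank ℚ K - 1) := by
      rw [← hcard, ← Finset.card_erase_of_mem hmem, ← Finset.prod_const]
      apply Finset.prod_le_prod
      · intro z _
        exact norm_nonneg _
      · intro z hz
        have hz' := Finset.mem_of_mem_erase hz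
        rw [Multiset.mem_toFinset] at hz'
        obtain ⟨φ, rfl⟩ := roots_minpoly a hz'
        exact hall φ
    have h9 : ‖w₀.embedding (a : K)‖ * ∏ z ∈ (((minpoly ℤ (a : K)).map
        (Int.castRingHom ℂ)).roots.toFinset).erase (w₀.embedding (a : K)), ‖z‖ ≤
        1 * (mC K : ℝ) ^ (finrank ℚ K - 1) :=
      mul_le_mul h7 h8 (Finset.prod_nonneg fun _ _ => norm_nonneg _) zero_le_one
    refine h9.trans ?_
    have h6 : (1 : ℝ) ≤ 2 ^ finrank ℚ K := one_le_pow₀ one_le_two
    have h10 : (0 : ℝ) ≤ (mC K : ℝ) ^ (finrank ℚ K - 1) := by positivity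
    nlinarith
  · simp only
    rw [h2, min_eq_left (by omega)]
    have h3 := coeff_le_of_roots_le (p := minpoly ℤ (a : K)) (f := Int.castRingHom ℂ)
      (B := mC K) i hmon (IsAlgClosed.splits _) (fun z hz => by
        obtain ⟨φ, rfl⟩ := roots_minpoly a hz
        exact hall φ)
    refine h3.trans ?_
    rw [minpoly_degree a h, mul_comm]
    have h4 : ((finrank ℚ K).choose i : ℝ) ≤ 2 ^ finrank ℚ K := by
      exact_mod_cast Nat.choose_le_two_pow _ _
    gcongr

end Pool.Agent.Helper79FreyD
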