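import Pool.Agent.Helper79_FreyD.OK
import Pool.Agent.Helper79_FreyD.Polys
import Pool.Agent.Helper79_FreyD.MPoly

/-!
# The number of polynomials whose field has a small discriminant
-/

namespace Pool.Agent.Helper79FreyD

open NumberField NumberField.InfinitePlace Module IntermediateField Polynomial
open scoped NNReal ENNReal

section
variable (f : ℤ[X]) [hf : Fact (Irreducible (toQ f))] (hmon : f.Monic)

include hmon in
lemma minpolyQ_root : minpoly ℚ (AdjoinRoot.root (toQ f)) = toQ f := by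
  symm
  apply minpoly.eq_of_irreducible_of_monic hf.out _ (hmon.map _)
  rw [aeval_def]
  have h1 : algebraMap ℚ (AdjoinRoot (toQ f)) = AdjoinRoot.of (toQ f) := Subsingleton.elim _ _
  rw [h1, AdjoinRoot.eval₂_root]

lemma adjoin_root_eq_top : ℚ⟮AdjoinRoot.root (toQ f)⟯ = ⊤ := by
  rw [eq_top_iff]
  intro x _
  obtain ⟨q, rfl⟩ := AdjoinRoot.mk_surjective x
  have h1 : algebraMap ℚ (AdjoinRoot (toQ f)) = AdjoinRoot.of (toQ f) := Subsingleton.elim _ _
  have h2 : ∀ q : ℚ[X], AdjoinRoot.mk (toQ f) q = aeval (AdjoinRoot.root (toQ f)) q := by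
    intro q
    rw [aeval_def, h1]
    induction q using Polynomial.induction_on' with
    | add p q hp hq => rw [map_add, eval₂_add, hp, hq]
    | monomial n a =>
      rw [eval₂_monomial, ← C_mul_X_pow_eq_monomial, map_mul, map_pow, AdjoinRoot.mk_C,
        AdjoinRoot.mk_X]
  rw [h2]
  exact algebra_adjoin_le_adjoin ℚ _ (aeval_mem_adjoin_singleton ℚ (AdjoinRoot.root (toQ f)))

include hmon in
lemma finrank_adjoinRoot : finrank ℚ (AdjoinRoot (toQ f)) = f.natDegree := by
  have h1 := (Field.primitive_element_iff_minpoly_natDegree_eq ℚ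
    (AdjoinRoot.root (toQ f))).mp (adjoin_root_eq_top f)
  rw [minpolyQ_root f hmon, hmon.natDegree_map] at h1
  exact h1.symm

include hmon in
lemma trace_root : Algebra.trace ℚ (AdjoinRoot (toQ f)) (AdjoinRoot.root (toQ f)) =
    -((f.nextCoeff : ℤ) : ℚ) := by
  have h1 := trace_eq_finrank_mul_minpoly_nextCoeff ℚ (AdjoinRoot.root (toQ f))
  rw [adjoin_root_eq_top f, IntermediateField.finrank_top, Nat.cast_one, one_mul,
    minpolyQ_root f hmon, nextCoeff_map (Int.castRingHom ℚ).injective_int, eq_intCast] at h1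
  exact h1

end

/-- The coefficient vectors of the polynomials which are minimal polynomials of small integers of
trace zero of the field `ℚ[x] / (P)`. -/
def fibre (n : ℕ) (R : ℝ) (P : ℤ[X]) : Set (Fin (n - 1) → ℤ) :=
  {a | ∃ _ : Fact (Irreducible (toQ P)), ∃ x ∈ small0 (AdjoinRoot (toQ P)) R,
    minpoly ℤ (x : AdjoinRoot (toQ P)) = mpoly n a}

lemma fibre_card (n : ℕ) (R : ℝ) (hR : 1 ≤ R) (P : ℤ[X]) (hmon : P.Monic)
    (hdeg : P.natDegree = n) :
    (fibre n R P).Finite ∧ ((fibre n R P).ncard : ℝ) ≤ 7 ^ n * R ^ (n - 1) := by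
  by_cases hP : Irreducible (toQ P)
  · have : Fact (Irreducible (toQ P)) := ⟨hP⟩
    have hfin := small0_finite (K := AdjoinRoot (toQ P)) R (by linarith)
    have hsub : fibre n R P ⊆ (fun x : 𝓞 (AdjoinRoot (toQ P)) => fun i : Fin (n - 1) =>
        (minpoly ℤ (x : AdjoinRoot (toQ P))).coeff i) '' small0 (AdjoinRoot (toQ P)) R := by
      rintro a ⟨_, x, hx, h⟩
      refine ⟨x, hx, ?_⟩
      ext i
      simp only
      rw [h, coeff_mpoly]
    refine ⟨(hfin.image _).subset hsub, ?_⟩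
    have h1 := (Set.ncard_le_ncard hsub (hfin.image _)).trans (Set.ncard_image_le hfin)
    have h2 := small0_ncard (K := AdjoinRoot (toQ P)) R hR
    rw [finrank_adjoinRoot P hmon, hdeg] at h2
    exact (by exact_mod_cast h1 : ((fibre n R P).ncard : ℝ) ≤ _).trans h2
  · have : fibre n R P = ∅ := by
      ext a
      simp only [Set.mem_empty_iff_false, iff_false]
      rintro ⟨h, _⟩
      exact hP h.out
    rw [this]
    refine ⟨Set.finite_empty, ?_⟩
    simp only [Set.ncard_empty, Nat.cast_zero]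
    positivity

/-- Every polynomial lies in the fibre of the minimal polynomial of a generator. -/
lemma mem_fibre (n : ℕ) (hn : 2 ≤ n) (a : Fin (n - 1) → ℤ) (H : ℝ) (hH : 0 < H)
    (ha : ∀ i, |(a i : ℝ)| ≤ H ^ (n - (i : ℕ))) [hf : Fact (Irreducible (toQ (mpoly n a)))]
    (y : 𝓞 (AdjoinRoot (toQ (mpoly n a)))) (hy : ℚ⟮(y : AdjoinRoot (toQ (mpoly n a)))⟯ = ⊤) :
    a ∈ fibre n (2 * H) (minpoly ℤ (y : AdjoinRoot (toQ (mpoly n a)))) := by
  set f := mpoly n a with hfdef
  set P := minpoly ℤ (y : AdjoinRoot (toQ f)) with hP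
  have hmon : f.Monic := monic_mpoly n hn a
  have hPQ : toQ P = minpoly ℚ (y : AdjoinRoot (toQ f)) := by
    rw [minpoly.isIntegrallyClosed_eq_field_fractions' ℚ y.isIntegral_coe]
    rfl
  have hyint : IsIntegral ℚ (y : AdjoinRoot (toQ f)) := Algebra.IsSeparable.isIntegral ℚ _
  have hirr : Irreducible (toQ P) := by
    rw [hPQ]
    exact minpoly.irreducible hyint
  have : Fact (Irreducible (toQ P)) := ⟨hirr⟩
  -- the isomorphism
  let e1 : AdjoinRoot (toQ P) ≃ₐ[ℚ] AdjoinRoot (minpoly ℚ (y : AdjoinRoot (toQ f))) :=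
    AdjoinRoot.algEquivOfEq ℚ _ _ hPQ
  let e2 : AdjoinRoot (minpoly ℚ (y : AdjoinRoot (toQ f))) ≃ₐ[ℚ]
      ℚ⟮(y : AdjoinRoot (toQ f))⟯ := adjoinRootEquivAdjoin ℚ hyint
  let e3 : ℚ⟮(y : AdjoinRoot (toQ f))⟯ ≃ₐ[ℚ] AdjoinRoot (toQ f) :=
    (IntermediateField.equivOfEq hy).trans IntermediateField.topEquiv
  let e : AdjoinRoot (toQ P) ≃ₐ[ℚ] AdjoinRoot (toQ f) := (e1.trans e2).trans e3
  set t : AdjoinRoot (toQ P) := e.symm (AdjoinRoot.root (toQ f)) with ht
  have hminQ : minpoly ℚ t = toQ f := by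
    rw [ht, minpoly.algEquiv_eq, minpolyQ_root f hmon]
  have hroot : aeval t f = 0 := by
    have h1 : aeval t (toQ f) = 0 := by
      rw [← hminQ, minpoly.aeval]
    have h2 : aeval t ((f.map (algebraMap ℤ ℚ))) = 0 := h1
    rwa [aeval_map_algebraMap] at h2
  have htint : IsIntegral ℤ t := ⟨f, hmon, by rwa [aeval_def] at hroot⟩
  let x : 𝓞 (AdjoinRoot (toQ P)) := ⟨t, htint⟩
  have hxt : (x : AdjoinRoot (toQ P)) = t := rfl
  have hminZ : minpoly ℤ (x : AdjoinRoot (toQ P)) = f := by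
    apply Polynomial.map_injective (Int.castRingHom ℚ) (Int.castRingHom ℚ).injective_int
    have h1 := minpoly.isIntegrallyClosed_eq_field_fractions' ℚ htint
    rw [hminQ] at h1
    exact h1.symm
  refine ⟨⟨hirr⟩, x, ⟨?_, ?_⟩, hminZ⟩
  · intro φ
    apply root_le n hn a H hH ha
    rw [← hfdef, hxt]
    have h4 : eval₂ (φ.comp (algebraMap ℤ (AdjoinRoot (toQ P)))) (φ t) f = 0 := by
      rw [← hom_eval₂, ← aeval_def, hroot, map_zero]
    have h5 : φ.comp (algebraMap ℤ (AdjoinRoot (toQ P))) = Int.castRingHom ℂ :=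
      RingHom.ext_int _ _
    rwa [h5] at h4
  · rw [hxt, ht, Algebra.trace_eq_of_algEquiv, trace_root f hmon, hfdef, nextCoeff_mpoly n hn]
    simp

end Pool.Agent.Helper79FreyD
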