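import Pool.Agent.Helper79_FreyD.Count

/-!
# The number of polynomials whose field has a small discriminant, main bound
-/

namespace Pool.Agent.Helper79FreyD

open NumberField NumberField.InfinitePlace Module IntermediateField Polynomial
open scoped NNReal ENNReal

/-- The exponent in the bound for the number of number fields of odd degree `n`. -/
noncomputable def E (n : ℕ) : ℝ := if n.Prime then ((n : ℝ) + 2) / 4 else (n : ℝ) / 2

lemma E_nonneg (n : ℕ) : 0 ≤ E n := by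
  unfold E
  split_ifs <;> positivity

/-- The bound for the coefficients of the minimal polynomial of the generator. -/
noncomputable def bd (n : ℕ) (N : ℝ) (i : ℕ) : ℝ :=
  if n.Prime then 2 ^ n * ((2 ^ n * √N + 1) ^ (((n : ℝ) - 1)⁻¹)) ^ min (n - i) (n - 1)
  else 2 ^ n * (2 ^ n * √N + 1)

lemma one_le_M (n : ℕ) (N : ℝ) : 1 ≤ 2 ^ n * √N + 1 := by
  have : 0 ≤ 2 ^ n * √N := by positivity
  linarith

lemma one_le_bd (n : ℕ) (hn : 2 ≤ n) (N : ℝ) (i : ℕ) : 1 ≤ bd n N i := by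
  have hn' : (2 : ℝ) ≤ n := by exact_mod_cast hn
  have h2 : (1 : ℝ) ≤ 2 ^ n := one_le_pow₀ one_le_two
  unfold bd
  split_ifs
  · have h3 : 1 ≤ (2 ^ n * √N + 1) ^ (((n : ℝ) - 1)⁻¹) := by
      apply Real.one_le_rpow (one_le_M n N)
      rw [inv_nonneg]
      linarith
    exact one_le_mul_of_one_le_of_one_le h2 (one_le_pow₀ h3)
  · exact one_le_mul_of_one_le_of_one_le h2 (one_le_M n N)

lemma sum_min (n : ℕ) (hn : 2 ≤ n) :
    2 * ∑ i ∈ Finset.range n, min (n - i) (n - 1) = (n - 1) * (n + 2) := by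
  obtain ⟨k, rfl⟩ : ∃ k, n = k + 1 := ⟨n - 1, by omega⟩
  rw [Finset.sum_range_succ', Nat.add_sub_cancel, Nat.sub_zero, min_eq_right (by omega)]
  have h1 : ∑ i ∈ Finset.range k, min (k + 1 - (i + 1)) k = ∑ i ∈ Finset.range k, (i + 1) := by
    rw [← Finset.sum_range_reflect]
    apply Finset.sum_congr rfl
    intro i hi
    rw [Finset.mem_range] at hi
    rw [min_eq_left (by omega)]
    omega
  rw [h1, Finset.sum_add_distrib, Finset.sum_const, Finset.card_range, smul_eq_mul, mul_one]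
  have h2 := Finset.sum_range_id_mul_two k
  have h3 : 2 * (∑ i ∈ Finset.range k, i) = k * (k - 1) := by rw [mul_comm]; exact h2
  obtain ⟨j, rfl⟩ : ∃ j, k = j + 1 := ⟨k - 1, by omega⟩
  rw [Nat.add_sub_cancel] at h3
  nlinarith

lemma prod_bd (n : ℕ) (hn : 2 ≤ n) : ∃ C : ℝ, 0 < C ∧ ∀ N : ℝ, 1 ≤ N →
    ∏ i ∈ Finset.range n, (3 * bd n N i) ≤ C * N ^ E n := by
  have hn' : (2 : ℝ) ≤ n := by exact_mod_cast hn
  unfold bd E
  by_cases hp : n.Prime
  · simp only [if_pos hp]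
    refine ⟨(3 * 2 ^ n) ^ n * (2 ^ n + 1) ^ (((n : ℝ) + 2) / 2), by positivity, fun N hN => ?_⟩
    have hN0 : 0 ≤ N := by linarith
    have hM : 2 ^ n * √N + 1 ≤ (2 ^ n + 1) * √N := by
      have : 1 ≤ √N := by rwa [Real.one_le_sqrt]
      linarith
    have hM0 : 0 ≤ 2 ^ n * √N + 1 := by positivity
    have h1 : ∏ i ∈ Finset.range n, (3 * (2 ^ n *
        ((2 ^ n * √N + 1) ^ (((n : ℝ) - 1)⁻¹)) ^ min (n - i) (n - 1))) =
        (3 * 2 ^ n) ^ n * (2 ^ n * √N + 1) ^ (((n : ℝ) + 2) / 2) := by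
      have h2 : ∀ i, 3 * (2 ^ n * ((2 ^ n * √N + 1) ^ (((n : ℝ) - 1)⁻¹)) ^ min (n - i) (n - 1)) =
          (3 * 2 ^ n) * ((2 ^ n * √N + 1) ^ (((n : ℝ) - 1)⁻¹)) ^ min (n - i) (n - 1) := by
        intro i
        ring
      simp only [h2]
      rw [Finset.prod_mul_distrib, Finset.prod_const, Finset.card_range,
        Finset.prod_pow_eq_pow_sum, ← Real.rpow_natCast ((2 ^ n * √N + 1) ^ (((n : ℝ) - 1)⁻¹)),
        ← Real.rpow_mul hM0]
      congr 2
      have h3 := sum_min n hn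
      have h4 : (2 : ℝ) * ((∑ i ∈ Finset.range n, min (n - i) (n - 1) : ℕ) : ℝ) =
          ((n : ℝ) - 1) * (n + 2) := by
        have h5 : ((2 * ∑ i ∈ Finset.range n, min (n - i) (n - 1) : ℕ) : ℝ) =
            (((n - 1) * (n + 2) : ℕ) : ℝ) := by rw [h3]
        rw [Nat.cast_mul, Nat.cast_mul, Nat.cast_sub (by omega)] at h5
        push_cast at h5 ⊢
        exact h5
      have h6 : ((∑ i ∈ Finset.range n, min (n - i) (n - 1) : ℕ) : ℝ) =
          ((n : ℝ) - 1) * (n + 2) / 2 := by linarith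
      rw [h6]
      have h7 : (n : ℝ) - 1 ≠ 0 := by linarith
      field_simp
    rw [h1]
    have h2 : (2 ^ n * √N + 1) ^ (((n : ℝ) + 2) / 2) ≤
        ((2 ^ n + 1) * √N) ^ (((n : ℝ) + 2) / 2) :=
      Real.rpow_le_rpow hM0 hM (by positivity)
    have h3 : ((2 ^ n + 1) * √N) ^ (((n : ℝ) + 2) / 2) =
        (2 ^ n + 1) ^ (((n : ℝ) + 2) / 2) * N ^ (((n : ℝ) + 2) / 4) := by
      rw [Real.mul_rpow (by positivity) (by positivity), Real.sqrt_eq_rpow, ← Real.rpow_mul hN0]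
      congr 2
      ring
    rw [h3] at h2
    calc _ ≤ (3 * 2 ^ n) ^ n * ((2 ^ n + 1) ^ (((n : ℝ) + 2) / 2) * N ^ (((n : ℝ) + 2) / 4)) := by
          gcongr
      _ = _ := by ring
  · simp only [if_neg hp]
    refine ⟨(3 * (2 ^ n * (2 ^ n + 1))) ^ n, by positivity, fun N hN => ?_⟩
    have hN0 : 0 ≤ N := by linarith
    have hM : 2 ^ n * √N + 1 ≤ (2 ^ n + 1) * √N := by
      have : 1 ≤ √N := by rwa [Real.one_le_sqrt]
      linarith
    rw [Finset.prod_const, Finset.card_range]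
    calc (3 * (2 ^ n * (2 ^ n * √N + 1))) ^ n ≤ (3 * (2 ^ n * ((2 ^ n + 1) * √N))) ^ n := by
          gcongr
      _ = (3 * (2 ^ n * (2 ^ n + 1))) ^ n * (√N) ^ n := by
          rw [← mul_pow]
          ring
      _ = (3 * (2 ^ n * (2 ^ n + 1))) ^ n * N ^ ((n : ℝ) / 2) := by
          congr 1
          rw [Real.sqrt_eq_rpow, ← Real.rpow_natCast, ← Real.rpow_mul hN0]
          congr 1
          ring

/-- The generator with a small minimal polynomial. -/
lemma exists_gen_polys (K : Type*) [Field K] [NumberField K] (n : ℕ) (hn : 2 ≤ n) (hodd : Odd n)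
    (hK : finrank ℚ K = n) (N : ℝ) (hN : ((discr K).natAbs : ℝ) ≤ N) :
    ∃ y : 𝓞 K, ℚ⟮(y : K)⟯ = ⊤ ∧ minpoly ℤ (y : K) ∈ polys n (bd n N) := by
  obtain ⟨w₀, hw₀⟩ := exists_real K (by rw [hK]; exact hodd)
  have hn' : (2 : ℝ) ≤ n := by exact_mod_cast hn
  have hmB : (mB K : ℝ) ≤ 2 ^ n * √N + 1 := by
    unfold mB
    rw [hK]
    have h1 : ((NNReal.sqrt ‖discr K‖₊ : ℝ≥0) : ℝ) ≤ √N := by
      rw [Real.coe_sqrt]
      apply Real.sqrt_le_sqrt
      rw [coe_nnnorm, Int.norm_eq_abs]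
      have h2 : |((discr K : ℤ) : ℝ)| = (((discr K).natAbs : ℕ) : ℝ) := by
        rw [← Int.cast_abs, Int.abs_eq_natAbs, Int.cast_natCast]
      rw [h2]
      exact hN
    rw [NNReal.coe_add, NNReal.coe_mul, NNReal.coe_pow, NNReal.coe_ofNat, NNReal.coe_one]
    gcongr
  by_cases hp : n.Prime
  · obtain ⟨y, h1, h2, h3⟩ := exists_gen_prime K (by rw [hK]; exact hp) hw₀
    refine ⟨y, h1, ?_⟩
    have h4 := coeff_gen_prime (by rw [hK]; omega) y h1 h2 h3
    rw [hK] at h4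
    refine ⟨h4.1, h4.2.1, fun i hi => (h4.2.2 i hi).trans ?_⟩
    simp only [bd, if_pos hp]
    have h5 : (mC K : ℝ) ≤ (2 ^ n * √N + 1) ^ (((n : ℝ) - 1)⁻¹) := by
      unfold mC
      rw [NNReal.coe_rpow, hK]
      apply Real.rpow_le_rpow (by positivity) hmB
      rw [inv_nonneg]
      linarith
    gcongr
  · obtain ⟨y, h1, h2, h3⟩ := exists_gen K hw₀
    refine ⟨y, h1, ?_⟩
    have h4 := coeff_gen hw₀ y h1 h2 h3
    rw [hK] at h4
    refine ⟨h4.1, h4.2.1, fun i hi => (h4.2.2 i hi).trans ?_⟩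
    simp only [bd, if_neg hp]
    gcongr

/-- The polynomials of height at most `H` whose field has absolute discriminant at most `N`. -/
def bad (n : ℕ) (H N : ℝ) : Set (Fin (n - 1) → ℤ) :=
  {a | (∀ i, |(a i : ℝ)| ≤ H ^ (n - (i : ℕ))) ∧
    ∃ _ : Fact (Irreducible (toQ (mpoly n a))), (absDisc (mpoly n a) : ℝ) ≤ N}

theorem bad_card (n : ℕ) (hn : 2 ≤ n) (hodd : Odd n) : ∃ C : ℝ, 0 < C ∧ ∀ H N : ℝ, 1 ≤ H →
    1 ≤ N → (bad n H N).Finite ∧ ((bad n H N).ncard : ℝ) ≤ C * N ^ E n * H ^ (n - 1) := by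
  obtain ⟨C, hC, hprod⟩ := prod_bd n hn
  refine ⟨C * (7 ^ n * 2 ^ (n - 1)), by positivity, fun H N hH hN => ?_⟩
  obtain ⟨hfin, hcard⟩ := polys_card n (bd n N) (fun i _ => one_le_bd n hn N i)
  have hfin' : (⋃ P ∈ polys n (bd n N), fibre n (2 * H) P).Finite := by
    apply hfin.biUnion
    intro P hP
    exact (fibre_card n (2 * H) (by linarith) P hP.1 hP.2.1).1
  have hsub : bad n H N ⊆ ⋃ P ∈ polys n (bd n N), fibre n (2 * H) P := by
    rintro a ⟨ha, hf, hD⟩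
    obtain ⟨y, hy1, hy2⟩ := exists_gen_polys (AdjoinRoot (toQ (mpoly n a))) n hn hodd
      (by rw [finrank_adjoinRoot _ (monic_mpoly n hn a), natDegree_mpoly n hn]) N hD
    rw [Set.mem_iUnion₂]
    exact ⟨_, hy2, mem_fibre n hn a H (by linarith) ha y hy1⟩
  refine ⟨hfin'.subset hsub, ?_⟩
  have h1 : ((bad n H N).ncard : ℝ) ≤ ∑ P ∈ hfin.toFinset, ((fibre n (2 * H) P).ncard : ℝ) := by
    have h2 := Set.ncard_le_ncard hsub hfin'
    have h3 : (⋃ P ∈ polys n (bd n N), fibre n (2 * H) P) =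
        ⋃ P ∈ hfin.toFinset, fibre n (2 * H) P := by simp
    rw [h3] at h2
    have h4 := h2.trans (Finset.set_ncard_biUnion_le hfin.toFinset (fun P => fibre n (2 * H) P))
    exact_mod_cast h4
  have h2 : ∑ P ∈ hfin.toFinset, ((fibre n (2 * H) P).ncard : ℝ) ≤
      ∑ _P ∈ hfin.toFinset, 7 ^ n * (2 * H) ^ (n - 1) := by
    apply Finset.sum_le_sum
    intro P hP
    rw [Set.Finite.mem_toFinset] at hP
    exact (fibre_card n (2 * H) (by linarith) P hP.1 hP.2.1).2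
  rw [Finset.sum_const, nsmul_eq_mul, ← Set.ncard_eq_toFinset_card _ hfin] at h2
  have h3 := hcard.trans (hprod N hN)
  calc ((bad n H N).ncard : ℝ) ≤ ((polys n (bd n N)).ncard : ℝ) * (7 ^ n * (2 * H) ^ (n - 1)) :=
        h1.trans h2
    _ ≤ (C * N ^ E n) * (7 ^ n * (2 * H) ^ (n - 1)) := by gcongr
    _ = _ := by
        rw [mul_pow]
        ring

end Pool.Agent.Helper79FreyD
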