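import Mathlib

/-!
# Definitions for the hand-in on Frey's height conjecture and discriminants of number fields

Everything is explicit: the monic polynomial `f` of the curve `y ^ m = f x`, the Gram matrices of
its holomorphic differentials, the height attached to them, and the discriminant of the number
field `ℚ[x] / (f)`.
-/

namespace Pool.Agent.Helper79FreyD

open Polynomial MeasureTheory
open scoped ComplexOrder

/-- The polynomial `x ^ n + a_(n-2) x ^ (n-2) + ... + a_0`. -/
noncomputable def mpoly (n : ℕ) (a : Fin (n - 1) → ℤ) : ℤ[X] :=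
  X ^ n + ∑ i : Fin (n - 1), C (a i) * X ^ (i : ℕ)

/-- The polynomial over the rationals. -/
noncomputable abbrev toQ (f : ℤ[X]) : ℚ[X] := f.map (Int.castRingHom ℚ)

/-- The absolute value of the discriminant of the number field `ℚ[x] / (f)`. -/
noncomputable def absDisc (f : ℤ[X]) [Fact (Irreducible (toQ f))] : ℕ :=
  (NumberField.discr (AdjoinRoot (toQ f))).natAbs

/-- The number of holomorphic differentials `x ^ i dx / (m y ^ j)` on `y ^ m = f x`, `n = deg f`:
the number of natural numbers `i` with `i + 1 < n j / m`. -/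
def num (m n j : ℕ) : ℕ := (n * j - 1) / m

/-- The function `z ^ p * conj z ^ q / |f z| ^ (2 j / m)`. -/
noncomputable def ker (m : ℕ) (f : ℤ[X]) (j p q : ℕ) (z : ℂ) : ℂ :=
  z ^ p * (starRingEnd ℂ z) ^ q /
    ((‖eval₂ (Int.castRingHom ℂ) z f‖ ^ (2 * (j : ℝ) / m) : ℝ) : ℂ)

/-- The Gram matrix of the differentials `x ^ p dx / (m y ^ j)`, `p < num m n j`: the entry
`(p, q)` is `1 / m` times the integral over the complex plane of
`z ^ p * conj z ^ q / |f z| ^ (2 j / m)`. -/
noncomputable def gram (m : ℕ) (f : ℤ[X]) (j : ℕ) :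
    Matrix (Fin (num m f.natDegree j)) (Fin (num m f.natDegree j)) ℂ :=
  Matrix.of fun p q => (1 / m : ℂ) * ∫ z : ℂ, ker m f j p q z

/-- The height: minus one half of the logarithm of the product of the Gram determinants,
`0 < j < m`. -/
noncomputable def hW (m : ℕ) (f : ℤ[X]) : ℝ :=
  ∑ j ∈ Finset.Ico 1 m, -(1 / 2) * Real.log (gram m f j).det.re

/-- The polynomial `f` is irreducible over the rationals, the integrals in the Gram matrices
converge (absolutely), the Gram matrices are positive definite, and the height is at most `κ` times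
the logarithm of the `(m - 1)`-st power of the absolute value of the discriminant of the number
field `ℚ[x] / (f)`, plus `C`. -/
def FreyHolds (m : ℕ) (κ C : ℝ) (f : ℤ[X]) : Prop :=
  ∃ _ : Fact (Irreducible (toQ f)),
    (∀ j ∈ Finset.Ico 1 m, (∀ p q : Fin (num m f.natDegree j), Integrable (ker m f j p q)) ∧
      (gram m f j).PosDef) ∧
    hW m f ≤ κ * Real.log ((absDisc f : ℝ) ^ (m - 1)) + C

/-- The sum of `n j / m - i - 1` over the holomorphic differentials `x ^ i dx / (m y ^ j)`. -/
noncomputable def sig (m n : ℕ) : ℝ :=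
  ∑ j ∈ Finset.Ico 1 m, ∑ i ∈ Finset.range (num m n j), ((n : ℝ) * j / m - i - 1)

end Pool.Agent.Helper79FreyD
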