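import Pool.Agent.Helper79_FreyD.Sharp
import Pool.Agent.Helper43_Frey.Lat5

/-!
# The two inputs, from the lattice part
-/

namespace Pool.Agent.Helper79FreyD

open NumberField NumberField.InfinitePlace Module IntermediateField Polynomial

lemma abs_discr (K : Type*) [Field K] [NumberField K] :
    |(discr K : ℝ)| = ((discr K).natAbs : ℝ) := by
  rw [← Int.cast_abs, Int.abs_eq_natAbs, Int.cast_natCast]

theorem ball_half (n : ℕ) : Ball n (((n - 1) / 2 : ℕ) : ℝ) := by
  obtain ⟨C, hC, h⟩ := Helper43Frey.small_ncard_upper.{0} n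
  refine ⟨C, hC, fun K _ _ hK R hR hD => ?_⟩
  rw [← abs_discr] at hD ⊢
  rw [Real.rpow_natCast] at hD
  have h1 := h K hK R hR hD
  have hs : 0 < √|(discr K : ℝ)| := by
    apply Real.sqrt_pos.mpr
    apply abs_pos.mpr
    exact_mod_cast discr_ne_zero K
  rwa [le_div_iff₀ hs]

variable {K : Type*} [Field K] [NumberField K]

lemma adjoin_add_int (y : 𝓞 K) (k : ℤ) (h : ℚ⟮(y : K)⟯ = ⊤) : ℚ⟮((y + (k : 𝓞 K) : 𝓞 K) : K)⟯ = ⊤ := by
  rw [eq_top_iff, ← h, adjoin_simple_le_iff]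
  have h1 : (y : K) = ((y + (k : 𝓞 K) : 𝓞 K) : K) - (k : K) := by simp
  rw [h1]
  exact sub_mem (mem_adjoin_simple_self ℚ _) (intCast_mem _ k)

/-- The bound for the coefficients of the normalised generator. -/
noncomputable def bg (n : ℕ) (B : ℝ) (i : ℕ) : ℝ :=
  if i + 1 = n then (n : ℝ) else 2 ^ n * (3 * B) ^ (n - i)

lemma one_le_bg (n : ℕ) (hn : 1 ≤ n) (B : ℝ) (hB : 1 ≤ B) (i : ℕ) : 1 ≤ bg n B i := by
  unfold bg
  split_ifs
  · exact_mod_cast hn
  · exact one_le_mul_of_one_le_of_one_le (one_le_pow₀ one_le_two)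
      (one_le_pow₀ (by linarith))

lemma exists_normalised (n : ℕ) (hn : 2 ≤ n) (hK : finrank ℚ K = n) (y : 𝓞 K)
    (hy : ℚ⟮(y : K)⟯ = ⊤) (B : ℝ) (hB : 1 ≤ B) (hyB : ∀ φ : K →+* ℂ, ‖φ (y : K)‖ ≤ B) :
    ∃ z : 𝓞 K, ℚ⟮(z : K)⟯ = ⊤ ∧ minpoly ℤ (z : K) ∈ polys n (bg n B) := by
  have hn0 : (0 : ℝ) < n := by exact_mod_cast (by omega : 0 < n)
  -- the trace of a generator is minus the coefficient of degree `n - 1`
  have htr : ∀ z : 𝓞 K, ℚ⟮(z : K)⟯ = ⊤ →
      Algebra.trace ℚ K (z : K) = -(((minpoly ℤ (z : K)).coeff (n - 1) : ℤ) : ℚ) := by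
    intro z hz
    have h1 := trace_eq_finrank_mul_minpoly_nextCoeff ℚ (z : K)
    rw [hz, IntermediateField.finrank_top, Nat.cast_one, one_mul,
      minpoly.isIntegrallyClosed_eq_field_fractions' ℚ z.isIntegral_coe] at h1
    rw [h1]
    congr 1
    have hdeg : (minpoly ℤ (z : K)).natDegree = n := by rw [minpoly_degree z hz, hK]
    rw [nextCoeff_map (algebraMap ℤ ℚ).injective_int, nextCoeff_of_natDegree_pos (by rw [hdeg]; omega), hdeg]
    simp
  set c : ℤ := (minpoly ℤ (y : K)).coeff (n - 1) with hc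
  -- size of the trace
  have hcB : |(c : ℝ)| ≤ n * B := by
    have h1 := trace_eq_sum_embeddings (K := ℚ) (L := K) ℂ (x := (y : K))
    rw [htr y hy] at h1
    have h2 : (c : ℂ) = -∑ σ : K →ₐ[ℚ] ℂ, σ (y : K) := by
      rw [← h1]
      simp [hc]
    have h3 : |(c : ℝ)| = ‖(c : ℂ)‖ := by rw [Complex.norm_intCast]
    rw [h3, h2, norm_neg]
    refine (norm_sum_le _ _).trans ?_
    calc ∑ σ : K →ₐ[ℚ] ℂ, ‖σ (y : K)‖ ≤ ∑ _σ : K →ₐ[ℚ] ℂ, B :=
          Finset.sum_le_sum fun σ _ => hyB σ.toRingHom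
      _ = n * B := by
          rw [Finset.sum_const, Finset.card_univ, AlgHom.card, hK, nsmul_eq_mul]
  set k : ℤ := c / n with hk
  have hn' : (n : ℤ) ≠ 0 := by omega
  refine ⟨y + (k : 𝓞 K), adjoin_add_int y k hy, ?_⟩
  set z : 𝓞 K := y + (k : 𝓞 K) with hz
  have hzt : ℚ⟮(z : K)⟯ = ⊤ := adjoin_add_int y k hy
  have hzK : (z : K) = (y : K) + (k : K) := by rw [hz]; simp
  have hcz : (minpoly ℤ (z : K)).coeff (n - 1) = c % n := by
    have h1 := htr z hzt
    rw [hzK, map_add, htr y hy, ← hzK] at h1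
    have h3 : Algebra.trace ℚ K (k : K) = n * (k : ℚ) := by
      have := Algebra.trace_algebraMap (R := ℚ) (S := K) (k : ℚ)
      rw [map_intCast, hK] at this
      rw [this, nsmul_eq_mul]
    rw [h3] at h1
    have h4 : (((minpoly ℤ (z : K)).coeff (n - 1) : ℤ) : ℚ) = ((c - n * k : ℤ) : ℚ) := by
      push_cast
      linarith
    have h5 : (minpoly ℤ (z : K)).coeff (n - 1) = c - n * k := by exact_mod_cast h4
    rw [h5, hk]
    have := Int.emod_add_mul_ediv c n
    linarith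
  have hkB : |(k : ℝ)| ≤ 2 * B := by
    have h1 : (n : ℤ) * k ≤ c := by
      have h2 := Int.emod_add_mul_ediv c n
      have h3 := Int.emod_nonneg c hn'
      linarith
    have h2 : c < (n : ℤ) * k + n := by
      have h2 := Int.emod_add_mul_ediv c n
      have h3 := Int.emod_lt_of_pos c (by omega : (0 : ℤ) < n)
      linarith
    have h1' : (n : ℝ) * k ≤ c := by exact_mod_cast h1
    have h2' : (c : ℝ) < (n : ℝ) * k + n := by exact_mod_cast h2
    rw [abs_le] at hcB ⊢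
    constructor
    · by_contra hcon
      rw [not_le] at hcon
      nlinarith [hcB.1]
    · by_contra hcon
      rw [not_le] at hcon
      nlinarith [hcB.2]
  have hzB : ∀ φ : K →+* ℂ, ‖φ (z : K)‖ ≤ 3 * B := by
    intro φ
    rw [hzK, map_add, map_intCast]
    refine (norm_add_le _ _).trans ?_
    rw [Complex.norm_intCast]
    linarith [hyB φ]
  have hmon := minpoly.monic z.isIntegral_coe
  have hdeg : (minpoly ℤ (z : K)).natDegree = n := by rw [minpoly_degree z hzt, hK]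
  refine ⟨hmon, hdeg, fun i hi => ?_⟩
  unfold bg
  split_ifs with h
  · have hi' : i = n - 1 := by omega
    rw [hi', hcz]
    have h1 := Int.emod_nonneg c hn'
    have h2 := Int.emod_lt_of_pos c (by omega : (0 : ℤ) < n)
    have h3 : |c % n| ≤ n := by rw [abs_of_nonneg h1]; exact h2.le
    exact_mod_cast h3
  · have h2 : |((minpoly ℤ (z : K)).coeff i : ℝ)| =
        ‖((minpoly ℤ (z : K)).map (Int.castRingHom ℂ)).coeff i‖ := by
      rw [coeff_map, eq_intCast, Complex.norm_intCast]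
    rw [h2]
    have h3 := coeff_le_of_roots_le (p := minpoly ℤ (z : K)) (f := Int.castRingHom ℂ)
      (B := 3 * B) i hmon (IsAlgClosed.splits _) (fun w hw => by
        obtain ⟨φ, rfl⟩ := roots_minpoly z hw
        exact hzB φ)
    refine h3.trans ?_
    rw [hdeg, mul_comm]
    have h4 : (n.choose i : ℝ) ≤ 2 ^ n := by
      exact_mod_cast Nat.choose_le_two_pow _ _
    gcongr

/-- The exponent of the elementary bound for the number of fields of degree `n`. -/
noncomputable def E₁ (n : ℕ) : ℝ :=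
  ((n : ℝ) + 2) * (n - 1) / (4 * ((n - n / n.minFac : ℕ) : ℝ))

lemma prod_bg (n : ℕ) (hn : 2 ≤ n) (B : ℝ) :
    ∏ i ∈ Finset.range n, (3 * bg n B i) =
      3 * n * (3 * 2 ^ n) ^ (n - 1) * (3 * B) ^ ((n + 2) * (n - 1) / 2) := by
  obtain ⟨k, rfl⟩ : ∃ k, n = k + 1 := ⟨n - 1, by omega⟩
  rw [Finset.prod_range_succ, Nat.add_sub_cancel]
  have h1 : ∏ i ∈ Finset.range k, (3 * bg (k + 1) B i) =
      (3 * 2 ^ (k + 1)) ^ k * (3 * B) ^ (∑ i ∈ Finset.range k, (k + 1 - i)) := by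
    rw [← Finset.prod_pow_eq_pow_sum]
    have h2 : (3 * 2 ^ (k + 1) : ℝ) ^ k = ∏ _i ∈ Finset.range k, (3 * 2 ^ (k + 1) : ℝ) := by
      rw [Finset.prod_const, Finset.card_range]
    rw [h2, ← Finset.prod_mul_distrib]
    apply Finset.prod_congr rfl
    intro i hi
    rw [Finset.mem_range] at hi
    unfold bg
    rw [if_neg (by omega)]
    ring
  have h3 : ∑ i ∈ Finset.range k, (k + 1 - i) = (k + 1 + 2) * k / 2 := by
    have h4 : ∀ k : ℕ, 2 * ∑ i ∈ Finset.range k, (k + 1 - i) = (k + 3) * k := by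
      intro k
      induction k with
      | zero => simp
      | succ k ih =>
        rw [Finset.sum_range_succ']
        have h5 : ∑ i ∈ Finset.range k, (k + 1 + 1 - (i + 1)) =
            ∑ i ∈ Finset.range k, (k + 1 - i) := by
          apply Finset.sum_congr rfl
          intro i _
          omega
        rw [h5, Nat.sub_zero, mul_add, ih]
        ring
    have h5 := h4 k
    have h6 : (k + 1 + 2) * k = (k + 3) * k := by ring
    omega
  rw [h1, h3]
  have h4 : bg (k + 1) B k = ((k + 1 : ℕ) : ℝ) := by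
    unfold bg
    rw [if_pos rfl]
  rw [h4]
  ring

/-- The number of number fields of degree `n`, elementary bound. -/
theorem genSet_E₁ (n : ℕ) (hn : 2 ≤ n) : GenSet n (E₁ n) := by
  obtain ⟨C, hC, h⟩ := Helper43Frey.exists_small_primitive.{0} n hn
  set s := n - n / n.minFac with hs
  have hs1 : 1 ≤ s := by
    have hq : 2 ≤ n.minFac := (Nat.minFac_prime (by omega)).two_le
    have : n / n.minFac ≤ n / 2 := Nat.div_le_div_left hq (by norm_num)
    omega
  have hs0 : (0 : ℝ) < s := by exact_mod_cast hs1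
  set A := max C 1 with hA
  have hA1 : 1 ≤ A := le_max_right _ _
  refine ⟨3 * n * (3 * 2 ^ n) ^ (n - 1) * (3 * A) ^ ((n + 2) * (n - 1) / 2), by positivity,
    fun N hN => ?_⟩
  have hN0 : 0 ≤ N := by linarith
  set B : ℝ := A * N ^ (1 / (2 * (s : ℝ))) with hBdef
  have hNp : 1 ≤ N ^ (1 / (2 * (s : ℝ))) := Real.one_le_rpow hN (by positivity)
  have hB : 1 ≤ B := one_le_mul_of_one_le_of_one_le hA1 hNp
  obtain ⟨hfin, hcard⟩ := polys_card n (bg n B) (fun i _ => one_le_bg n (by omega) B hB i)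
  refine ⟨hfin.toFinset, ?_, ?_, ?_⟩
  · intro P hP
    rw [Set.Finite.mem_toFinset] at hP
    exact ⟨hP.1, hP.2.1⟩
  · rw [← Set.ncard_eq_toFinset_card _ hfin]
    refine hcard.trans (le_of_eq ?_)
    rw [prod_bg n hn, hBdef, ← mul_assoc 3 A, mul_pow (3 * A), ← Real.rpow_natCast (N ^ _),
      ← Real.rpow_mul hN0, ← mul_assoc]
    congr 2
    have h2 : 2 ∣ (n + 2) * (n - 1) := by
      rcases Nat.even_or_odd n with he | ho
      · exact Dvd.dvd.mul_right (by obtain ⟨k, hk⟩ := he; exact ⟨k + 1, by omega⟩) _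
      · exact Dvd.dvd.mul_left (by obtain ⟨k, hk⟩ := ho; exact ⟨k, by omega⟩) _
    have h3 : ((n - 1 : ℕ) : ℝ) = (n : ℝ) - 1 := by
      rw [Nat.cast_sub (by omega), Nat.cast_one]
    rw [Nat.cast_div h2 (by norm_num), Nat.cast_mul, h3, Nat.cast_add, Nat.cast_ofNat]
    unfold E₁
    rw [← hs]
    field_simp
    ring
  · intro K _ _ hK hD
    obtain ⟨y, hy, hyB⟩ := h K hK
    rw [abs_discr] at hyB
    have hyB' : ∀ φ : K →+* ℂ, ‖φ (y : K)‖ ≤ B := by
      intro φ
      refine (hyB φ).trans ?_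
      rw [hBdef]
      have h1 : C ≤ A := le_max_left _ _
      gcongr
    obtain ⟨z, hz1, hz2⟩ := exists_normalised n hn hK y hy B hB hyB'
    exact ⟨z, hz1, by rwa [Set.Finite.mem_toFinset]⟩

end Pool.Agent.Helper79FreyD
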