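import Pool.Agent.Helper20_FreyS.Gram
import Pool.Agent.Helper79_FreyD.MPoly

/-!
# The Gram matrices and the upper bound for the height
-/

namespace Pool.Agent.Helper79FreyD

open MeasureTheory Metric ComplexConjugate Polynomial Matrix
open scoped ComplexOrder

/-- The polynomial over the complex numbers. -/
noncomputable abbrev toC (f : ℤ[X]) : ℂ[X] := f.map (Int.castRingHom ℂ)

lemma natDegree_toC (f : ℤ[X]) (hmon : f.Monic) : (toC f).natDegree = f.natDegree :=
  hmon.natDegree_map _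

lemma ker_eq (m : ℕ) (f : ℤ[X]) (j p q : ℕ) (z : ℂ) :
    ker m f j p q z = z ^ p * conj z ^ q *
      ((‖(toC f).eval z‖ ^ (-(2 * (j : ℝ) / m)) : ℝ) : ℂ) := by
  unfold ker
  rw [eval_map, Real.rpow_neg (norm_nonneg _), Complex.ofReal_inv, div_eq_mul_inv]

/-- The exponent condition for the differentials. -/
lemma num_lt {m n j p : ℕ} (hm : 0 < m) (hp : p < num m n j) :
    ((p : ℝ) + 1) < (n : ℝ) * j / m := by
  have h1 : p + 1 ≤ (n * j - 1) / m := hp
  rw [Nat.le_div_iff_mul_le hm] at h1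
  have h2 : (p + 1) * m < n * j := by
    have h0 : 0 < (p + 1) * m := by positivity
    omega
  rw [lt_div_iff₀ (by exact_mod_cast hm)]
  exact_mod_cast h2

lemma integrable_ker {m : ℕ} (hm : 0 < m) (f : ℤ[X]) (hmon : f.Monic)
    (hsep : (toC f).Separable) (j : ℕ) (hj : 1 ≤ j) (hjm : j < m)
    (p q : Fin (num m f.natDegree j)) : Integrable (ker m f j p q) := by
  have hm' : (0 : ℝ) < m := by exact_mod_cast hm
  have hj' : (0 : ℝ) < j := by exact_mod_cast hj
  have hjm' : (j : ℝ) < m := by exact_mod_cast hjm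
  have h := Helper20FreyS.integrable_kernel (toC f) hsep (2 * (j : ℝ) / m) (by positivity)
    (by rw [div_lt_iff₀ hm']; linarith) p q (by
      rw [natDegree_toC f hmon]
      have h1 := num_lt hm p.2
      have h2 := num_lt hm q.2
      have h3 : 2 * (j : ℝ) / m * f.natDegree = 2 * ((f.natDegree : ℝ) * j / m) := by ring
      rw [h3]
      linarith)
  refine h.congr (Filter.Eventually.of_forall fun z => ?_)
  exact (ker_eq m f j p q z).symm

/-- The quadratic form of the Gram matrix. -/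
lemma gram_form (m : ℕ) (f : ℤ[X]) (j : ℕ)
    (hint : ∀ p q : Fin (num m f.natDegree j), Integrable (ker m f j p q))
    (v : Fin (num m f.natDegree j) → ℂ) :
    star v ⬝ᵥ (gram m f j *ᵥ v) = ((1 / m * ∫ z : ℂ, ‖∑ i, conj (v i) * z ^ (i : ℕ)‖ ^ 2 *
      ‖(toC f).eval z‖ ^ (-(2 * (j : ℝ) / m)) : ℝ) : ℂ) := by
  have hint' : ∀ p q : Fin (num m f.natDegree j), Integrable (fun z : ℂ => z ^ (p : ℕ) * conj z ^ (q : ℕ) *
      ((‖(toC f).eval z‖ ^ (-(2 * (j : ℝ) / m)) : ℝ) : ℂ)) := by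
    intro p q
    refine (hint p q).congr (Filter.Eventually.of_forall fun z => ?_)
    exact ker_eq m f j p q z
  have h1 := Helper5Frey.form_eq (fun z => ‖(toC f).eval z‖ ^ (-(2 * (j : ℝ) / m))) hint'
    (fun i => conj (v i))
  have h0 : ((1 / m * ∫ z : ℂ, ‖∑ i, conj (v i) * z ^ (i : ℕ)‖ ^ 2 *
      ‖(toC f).eval z‖ ^ (-(2 * (j : ℝ) / m)) : ℝ) : ℂ) = (1 / m : ℂ) *
      ((∫ z : ℂ, ‖∑ i, conj (v i) * z ^ (i : ℕ)‖ ^ 2 *
      ‖(toC f).eval z‖ ^ (-(2 * (j : ℝ) / m)) : ℝ) : ℂ) := by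
    push_cast
    ring
  rw [h0, ← h1, dotProduct, Finset.mul_sum]
  apply Finset.sum_congr rfl
  intro i _
  rw [mulVec, dotProduct, Finset.mul_sum, Finset.mul_sum]
  apply Finset.sum_congr rfl
  intro k _
  have h2 : gram m f j i k = (1 / m : ℂ) * ∫ z : ℂ, z ^ (i : ℕ) * conj z ^ (k : ℕ) *
      ((‖(toC f).eval z‖ ^ (-(2 * (j : ℝ) / m)) : ℝ) : ℂ) := by
    unfold gram
    rw [of_apply]
    congr 2
    ext z
    exact ker_eq m f j i k z
  rw [h2]
  simp only [Pi.star_apply, RCLike.star_def, Complex.conj_conj]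
  ring

lemma gram_isHermitian (m : ℕ) (f : ℤ[X]) (j : ℕ) : (gram m f j).IsHermitian := by
  ext i k
  unfold gram
  rw [conjTranspose_apply, of_apply, of_apply, RCLike.star_def, map_mul, ← integral_conj]
  congr 1
  · rw [map_div₀, map_one, map_natCast]
  · congr 1
    ext z
    unfold ker
    simp only [map_div₀, map_mul, map_pow, Complex.conj_conj, Complex.conj_ofReal]
    ring

/-- Lower bound for one Gram determinant. -/
theorem det_bound {m : ℕ} (hm : 0 < m) (n : ℕ) (j : ℕ) (hj : 1 ≤ j) (hjm : j < m) :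
    ∃ c : ℝ, 0 < c ∧ ∀ f : ℤ[X], f.Monic → f.natDegree = n → (toC f).Separable →
      (gram m f j).PosDef ∧
      ∀ ρ B : ℝ, 0 < ρ → 0 < B → (∀ z : ℂ, ‖z‖ ≤ ρ → ‖(toC f).eval z‖ ≤ B) →
        (c / B ^ (2 * (j : ℝ) / m)) ^ (num m n j) *
          ρ ^ (num m n j * (num m n j + 1)) ≤ (gram m f j).det.re := by
  obtain ⟨c, hc, hcw⟩ := Helper5Frey.disc_lower (num m n j)
  have hm' : (0 : ℝ) < m := by exact_mod_cast hm
  have hj' : (0 : ℝ) < j := by exact_mod_cast hj
  set s : ℝ := 2 * (j : ℝ) / m with hs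
  have hs0 : 0 < s := by positivity
  refine ⟨c / m, by positivity, ?_⟩
  intro f hmon hdeg hsep
  subst hdeg
  set g := num m f.natDegree j with hg
  have hP0 : toC f ≠ 0 := hsep.ne_zero
  have hint := integrable_ker hm f hmon hsep j hj hjm
  have hform : ∀ ρ B : ℝ, 0 < ρ → 0 < B → (∀ z : ℂ, ‖z‖ ≤ ρ → ‖(toC f).eval z‖ ≤ B) →
      ∀ v : Fin g → ℂ, c / m / B ^ s * ∑ i : Fin g, ‖v i‖ ^ 2 *
        (ρ ^ ((i : ℕ) + 1)) ^ 2 ≤ (star v ⬝ᵥ (gram m f j *ᵥ v)).re := by
    intro ρ B hρ hB ha' v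
    rw [gram_form m f j hint v, Complex.ofReal_re]
    have hint2 : Integrable (fun z : ℂ => ‖∑ i, conj (v i) * z ^ (i : ℕ)‖ ^ 2 *
        ‖(toC f).eval z‖ ^ (-s)) := by
      have h1 : Integrable (fun z : ℂ => ∑ i : Fin g, ∑ k : Fin g, conj (v i) * v k *
          (ker m f j i k z)) := by
        apply integrable_finsetSum
        intro i _
        apply integrable_finsetSum
        intro k _
        exact (hint i k).const_mul _
      have h2 := h1.re
      refine h2.congr (Filter.Eventually.of_forall fun z => ?_)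
      have h3 : (∑ i : Fin g, ∑ k : Fin g, conj (v i) * v k * (ker m f j i k z)) =
          ((‖∑ i, conj (v i) * z ^ (i : ℕ)‖ ^ 2 * ‖(toC f).eval z‖ ^ (-s) : ℝ) : ℂ) := by
        have h4 : ((‖∑ i, conj (v i) * z ^ (i : ℕ)‖ : ℝ) : ℂ) ^ 2 =
            (∑ i, conj (v i) * z ^ (i : ℕ)) * conj (∑ i, conj (v i) * z ^ (i : ℕ)) := by
          rw [Complex.mul_conj, Complex.normSq_eq_norm_sq]
          push_cast
          rfl
        rw [Complex.ofReal_mul, Complex.ofReal_pow, h4, map_sum, Finset.sum_mul_sum,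
          Finset.sum_mul]
        apply Finset.sum_congr rfl
        intro i _
        rw [Finset.sum_mul]
        apply Finset.sum_congr rfl
        intro k _
        rw [ker_eq]
        simp only [map_mul, map_pow, Complex.conj_conj]
        ring
      simp only [h3]
      exact RCLike.ofReal_re _
    have h5 := Helper20FreyS.weighted_lower_scaled c hcw (toC f) hP0 s hs0 ρ B hρ hB
      ha' (fun i => conj (v i)) hint2
    have h6 : ∑ i : Fin g, ‖conj (v i)‖ ^ 2 * (ρ ^ ((i : ℕ) + 1)) ^ 2 =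
        ∑ i : Fin g, ‖v i‖ ^ 2 * (ρ ^ ((i : ℕ) + 1)) ^ 2 := by
      apply Finset.sum_congr rfl
      intro i _
      rw [RCLike.norm_conj]
    rw [h6] at h5
    calc c / m / B ^ s * ∑ i : Fin g, ‖v i‖ ^ 2 * (ρ ^ ((i : ℕ) + 1)) ^ 2 =
        1 / m * (c / B ^ s * ∑ i : Fin g, ‖v i‖ ^ 2 * (ρ ^ ((i : ℕ) + 1)) ^ 2) := by
          field_simp
      _ ≤ _ := by gcongr
  refine ⟨?_, ?_⟩
  · apply PosDef.of_dotProduct_mulVec_pos (gram_isHermitian m f j)
    intro v hv
    obtain ⟨B, hB⟩ : ∃ B : ℝ, ∀ z : ℂ, ‖z‖ ≤ 1 → ‖(toC f).eval z‖ ≤ B := by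
      have hcont : ContinuousOn (fun z : ℂ => ‖(toC f).eval z‖) (closedBall 0 1) :=
        ((toC f).continuous.norm).continuousOn
      obtain ⟨B, hB⟩ := (isCompact_closedBall (0 : ℂ) 1).exists_bound_of_continuousOn hcont
      refine ⟨B, fun z hz => ?_⟩
      have := hB z (by rwa [mem_closedBall_zero_iff])
      rwa [norm_norm] at this
    set ρ : ℝ := 1 with hρ
    have hB1 : 0 < max B 1 := lt_of_lt_of_le one_pos (le_max_right _ _)
    have h1 := hform ρ (max B 1) one_pos hB1 (fun z hz => (hB z hz).trans (le_max_left _ _)) v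
    have h2 : 0 < ∑ i : Fin g, ‖v i‖ ^ 2 * (ρ ^ ((i : ℕ) + 1)) ^ 2 := by
      obtain ⟨i, hi⟩ := Function.ne_iff.mp hv
      apply Finset.sum_pos' (fun i _ => by positivity)
      exact ⟨i, Finset.mem_univ i, by
        have : 0 < ‖v i‖ := norm_pos_iff.mpr hi
        positivity⟩
    have h3 : 0 < (star v ⬝ᵥ (gram m f j *ᵥ v)).re :=
      lt_of_lt_of_le (by positivity) h1
    rw [gram_form m f j hint v] at h3 ⊢
    rw [Complex.ofReal_re] at h3
    exact_mod_cast h3
  · intro ρ B hρ hB ha'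
    have h1 := Helper5Frey.det_lower_scaled _ (gram_isHermitian m f j)
      (c / m / B ^ s) (by positivity) (fun i => ρ ^ ((i : ℕ) + 1))
      (fun i => by positivity) (hform ρ B hρ hB ha')
    refine le_trans (le_of_eq ?_) h1
    congr 1
    exact (Helper20FreyS.prod_pow_succ ρ g).symm

end Pool.Agent.Helper79FreyD
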