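import Pool.Agent.Helper79_FreyD.Gram

/-!
# The upper bound for the height
-/

namespace Pool.Agent.Helper79FreyD

open MeasureTheory Finset Polynomial
open scoped ComplexOrder

/-- The upper bound for the height, in terms of a bound of the polynomial on a disc. -/
theorem height_upper (m n : ℕ) (hm : 0 < m) : ∃ C : ℝ, ∀ f : ℤ[X], f.Monic → f.natDegree = n →
    (toC f).Separable →
    (∀ j ∈ Ico 1 m, (∀ p q : Fin (num m f.natDegree j), Integrable (ker m f j p q)) ∧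
      (gram m f j).PosDef) ∧
    ∀ ρ B : ℝ, 0 < ρ → 0 < B → (∀ z : ℂ, ‖z‖ ≤ ρ → ‖(toC f).eval z‖ ≤ B) →
      hW m f ≤ ∑ j ∈ Ico 1 m, ((num m n j : ℝ) * ((j : ℝ) / m) * Real.log B -
        (num m n j : ℝ) * (num m n j + 1) / 2 * Real.log ρ) + C := by
  have key : ∀ j ∈ Ico 1 m, ∃ C : ℝ, ∀ f : ℤ[X], f.Monic → f.natDegree = n →
      (toC f).Separable → (gram m f j).PosDef ∧
      ∀ ρ B : ℝ, 0 < ρ → 0 < B → (∀ z : ℂ, ‖z‖ ≤ ρ → ‖(toC f).eval z‖ ≤ B) →
      -(1 / 2) * Real.log (gram m f j).det.re ≤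
        ((num m n j : ℝ) * ((j : ℝ) / m) * Real.log B -
        (num m n j : ℝ) * (num m n j + 1) / 2 * Real.log ρ) + C := by
    intro j hj
    rw [mem_Ico] at hj
    obtain ⟨c, hc, h⟩ := det_bound hm n j hj.1 hj.2
    have hm' : (0 : ℝ) < m := by exact_mod_cast hm
    set g := num m n j with hg
    refine ⟨-(1 / 2) * (g * Real.log c), fun f hmon hdeg hsep => ⟨(h f hmon hdeg hsep).1, ?_⟩⟩
    intro ρ B hρ hB hfB
    have h1 := (h f hmon hdeg hsep).2 ρ B hρ hB hfB
    have hpos : 0 < (c / B ^ (2 * (j : ℝ) / m)) ^ g * ρ ^ (g * (g + 1)) := by positivity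
    have h2 := Real.log_le_log hpos h1
    rw [Real.log_mul (by positivity) (by positivity), Real.log_pow, Real.log_pow,
      Real.log_div hc.ne' (by positivity), Real.log_rpow hB] at h2
    push_cast at h2
    have h4 : 2 * (j : ℝ) / m = 2 * ((j : ℝ) / m) := by ring
    rw [h4] at h2
    nlinarith [h2]
  choose! Cj hCj using key
  refine ⟨∑ j ∈ Ico 1 m, Cj j, ?_⟩
  intro f hmon hdeg hsep
  refine ⟨fun j hj => ⟨?_, (hCj j hj f hmon hdeg hsep).1⟩, ?_⟩
  · have hj' := mem_Ico.1 hj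
    exact integrable_ker hm f hmon hsep j hj'.1 hj'.2
  · intro ρ B hρ hB hfB
    unfold hW
    rw [← sum_add_distrib]
    exact sum_le_sum fun j hj => (hCj j hj f hmon hdeg hsep).2 ρ B hρ hB hfB

lemma sum_range_lin (x : ℝ) (g : ℕ) :
    ∑ i ∈ range g, (x - i - 1) = g * x - g * (g + 1) / 2 := by
  induction g with
  | zero => simp
  | succ k ih =>
    rw [sum_range_succ, ih]
    push_cast
    ring

lemma sig_eq (m n : ℕ) : sig m n = ∑ j ∈ Ico 1 m, ((num m n j : ℝ) * ((n : ℝ) * j / m) -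
    (num m n j : ℝ) * (num m n j + 1) / 2) := by
  unfold sig
  apply sum_congr rfl
  intro j _
  rw [sum_range_lin]

/-- The upper bound for the height in the family of the monic polynomials. -/
theorem height_mpoly (m n : ℕ) (hm : 0 < m) (hn : 2 ≤ n) : ∃ C : ℝ, ∀ a : Fin (n - 1) → ℤ,
    (toC (mpoly n a)).Separable →
    (∀ j ∈ Ico 1 m, (∀ p q : Fin (num m (mpoly n a).natDegree j),
      Integrable (ker m (mpoly n a) j p q)) ∧ (gram m (mpoly n a) j).PosDef) ∧
    ∀ H : ℝ, 1 ≤ H → (∀ i, |(a i : ℝ)| ≤ H ^ (n - (i : ℕ))) →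
      hW m (mpoly n a) ≤ sig m n * Real.log H + C := by
  obtain ⟨C, hC⟩ := height_upper m n hm
  refine ⟨(∑ j ∈ Ico 1 m, (num m n j : ℝ) * ((j : ℝ) / m)) * Real.log n + C, fun a hsep => ?_⟩
  obtain ⟨h1, h2⟩ := hC (mpoly n a) (monic_mpoly n hn a) (natDegree_mpoly n hn a) hsep
  refine ⟨h1, fun H hH ha => ?_⟩
  have hH0 : 0 < H := by linarith
  have hn0 : (0 : ℝ) < n := by exact_mod_cast (by omega : 0 < n)
  refine (h2 H (n * H ^ n) hH0 (by positivity) (fun z hz => by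
    rw [eval_map]
    exact norm_mpoly_le n hn a H hH0 ha z hz)).trans (le_of_eq ?_)
  rw [Real.log_mul hn0.ne' (by positivity), Real.log_pow, sig_eq, ← add_assoc, Finset.sum_mul,
    Finset.sum_mul, ← Finset.sum_add_distrib]
  congr 1
  apply sum_congr rfl
  intro j _
  ring

end Pool.Agent.Helper79FreyD
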