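import Mathlib

/-!
# Small generators of number fields with a real place
-/

namespace Pool.Agent.Helper79FreyD

open NumberField NumberField.InfinitePlace NumberField.mixedEmbedding Module IntermediateField
open scoped NNReal ENNReal

variable (K : Type*) [Field K] [NumberField K]

/-- The bound `2 ^ n √|D| + 1`. -/
noncomputable def mB : ℝ≥0 := 2 ^ finrank ℚ K * NNReal.sqrt ‖discr K‖₊ + 1

open scoped Classical in
lemma minkowskiBound_lt : minkowskiBound K ↑1 < (mB K : ℝ≥0∞) := by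
  have h1 : ((2 ^ finrank ℚ K * NNReal.sqrt ‖discr K‖₊ : ℝ≥0) : ℝ≥0∞) < (mB K : ℝ≥0∞) := by
    rw [ENNReal.coe_lt_coe]
    unfold mB
    exact lt_add_one _
  refine lt_of_le_of_lt ?_ h1
  rw [minkowskiBound, volume_fundamentalDomain_fractionalIdealLatticeBasis, Units.val_one,
    FractionalIdeal.absNorm_one, Rat.cast_one, ENNReal.ofReal_one, one_mul,
    mixedEmbedding.finrank, volume_fundamentalDomain_latticeBasis, ENNReal.coe_mul,
    ENNReal.coe_pow, ENNReal.coe_ofNat, mul_comm ((2 : ℝ≥0∞) ^ finrank ℚ K)]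
  apply mul_le_mul_left
  calc _ ≤ 1 * (NNReal.sqrt ‖discr K‖₊ : ℝ≥0∞) := by
        apply mul_le_mul_left
        exact pow_le_one₀ (by positivity) (by simp)
    _ = _ := one_mul _

open scoped Classical in
lemma bound_lt_volume (f : InfinitePlace K → ℝ≥0) (hf : ∏ w, f w ^ mult w = mB K) :
    minkowskiBound K ↑1 < MeasureTheory.volume (convexBodyLT K f) := by
  refine (minkowskiBound_lt K).trans_le ?_
  rw [convexBodyLT_volume]
  rw [hf]
  have h2 : (1 : ℝ≥0∞) ≤ ((convexBodyLTFactor K : ℝ≥0) : ℝ≥0∞) := by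
    exact_mod_cast one_le_convexBodyLTFactor K
  calc (mB K : ℝ≥0∞) = 1 * (mB K : ℝ≥0∞) := (one_mul _).symm
    _ ≤ _ := by gcongr

lemma exists_real (hodd : Odd (finrank ℚ K)) : ∃ w : InfinitePlace K, IsReal w := by
  classical
  have h := nrRealPlaces_pos_of_odd_finrank hodd
  rw [nrRealPlaces, Fintype.card_pos_iff] at h
  obtain ⟨w, hw⟩ := h
  exact ⟨w, hw⟩

/-- A generator with one large conjugate. -/
theorem exists_gen {w₀ : InfinitePlace K} (hw₀ : IsReal w₀) :
    ∃ a : 𝓞 K, ℚ⟮(a : K)⟯ = ⊤ ∧ w₀ (a : K) ≤ mB K ∧ ∀ w, w ≠ w₀ → w (a : K) ≤ 1 := by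
  classical
  have h1 := bound_lt_volume K (fun w => if w = w₀ then mB K else 1) (by
    rw [← Finset.prod_erase_mul _ _ (Finset.mem_univ w₀)]
    simp_rw [ite_pow, one_pow]
    rw [Finset.prod_ite_eq']
    simp_rw [Finset.notMem_erase, ite_false, mult, hw₀, ite_true, one_mul, pow_one])
  obtain ⟨a, h_nz, h_le⟩ := exists_ne_zero_mem_ringOfIntegers_lt K h1
  have h2 : ∀ w, w ≠ w₀ → w (a : K) < 1 := by
    intro w hw
    have h3 := h_le w
    rw [if_neg hw, NNReal.coe_one] at h3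
    exact h3
  refine ⟨a, is_primitive_element_of_infinitePlace_lt h_nz (fun w hw => h2 w hw) (Or.inl hw₀),
    ?_, fun w hw => (h2 w hw).le⟩
  have h3 := h_le w₀
  rw [if_pos rfl] at h3
  exact h3.le

/-- The bound in prime degree. -/
noncomputable def mC : ℝ≥0 := (mB K) ^ (((finrank ℚ K : ℝ) - 1)⁻¹)

lemma one_le_mB : 1 ≤ mB K := by
  unfold mB
  exact le_add_self

lemma one_le_mC (h : 1 < finrank ℚ K) : 1 ≤ mC K := by
  unfold mC
  apply NNReal.one_le_rpow (one_le_mB K)
  have : (1 : ℝ) < finrank ℚ K := by exact_mod_cast h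
  rw [inv_nonneg]
  linarith

lemma mC_pow (h : 1 < finrank ℚ K) : mC K ^ (finrank ℚ K - 1) = mB K := by
  unfold mC
  rw [← NNReal.rpow_natCast, ← NNReal.rpow_mul, Nat.cast_sub h.le, Nat.cast_one, inv_mul_cancel₀,
    NNReal.rpow_one]
  have : (1 : ℝ) < finrank ℚ K := by exact_mod_cast h
  linarith

/-- A generator with one small conjugate, prime degree. -/
theorem exists_gen_prime (hp : (finrank ℚ K).Prime) {w₀ : InfinitePlace K} (hw₀ : IsReal w₀) :
    ∃ a : 𝓞 K, ℚ⟮(a : K)⟯ = ⊤ ∧ w₀ (a : K) ≤ 1 ∧ ∀ w, w ≠ w₀ → w (a : K) ≤ mC K := by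
  classical
  have h1 := bound_lt_volume K (fun w => if w = w₀ then 1 else mC K) (by
    rw [← Finset.prod_erase_mul _ _ (Finset.mem_univ w₀), if_pos rfl, one_pow, mul_one]
    rw [Finset.prod_congr rfl (fun w hw => by rw [if_neg (Finset.ne_of_mem_erase hw)]),
      Finset.prod_pow_eq_pow_sum]
    have h2 := sum_mult_eq (K := K)
    rw [← Finset.sum_erase_add _ _ (Finset.mem_univ w₀), mult, if_pos hw₀] at h2
    have h3 : ∑ w ∈ Finset.univ.erase w₀, mult w = finrank ℚ K - 1 := by omega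
    rw [h3, mC_pow K hp.one_lt])
  obtain ⟨a, h_nz, h_le⟩ := exists_ne_zero_mem_ringOfIntegers_lt K h1
  have h2 : ∀ w, w ≠ w₀ → w (a : K) < mC K := by
    intro w hw
    have h4 := h_le w
    rw [if_neg hw] at h4
    exact h4
  have h3 : w₀ (a : K) < 1 := by
    have h4 := h_le w₀
    rw [if_pos rfl, NNReal.coe_one] at h4
    exact h4
  refine ⟨a, ?_, h3.le, fun w hw => (h2 w hw).le⟩
  have := isSimpleOrder_of_finrank_prime ℚ K hp
  rcases IsSimpleOrder.eq_bot_or_eq_top (ℚ⟮(a : K)⟯) with h | h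
  · exfalso
    rw [adjoin_simple_eq_bot_iff, IntermediateField.mem_bot] at h
    obtain ⟨q, hq⟩ := h
    have hint : IsIntegral ℤ q := by
      have h4 : IsIntegral ℤ (algebraMap ℚ K q) := by
        rw [hq]
        exact a.isIntegral_coe
      exact (isIntegral_algebraMap_iff (algebraMap ℚ K).injective).mp h4
    obtain ⟨k, hk⟩ := IsIntegrallyClosed.isIntegral_iff.mp hint
    have h5 : (a : K) = (k : K) := by
      rw [← hq, ← hk]
      simp
    have h6 : w₀ (k : K) = |(k : ℝ)| := by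
      rw [← norm_embedding_eq, map_intCast, Complex.norm_intCast]
    rw [h5, h6] at h3
    have h7 : |k| < 1 := by exact_mod_cast h3
    rw [Int.abs_lt_one_iff] at h7
    rw [h7, Int.cast_zero] at h5
    exact h_nz (RingOfIntegers.ext h5)
  · exact h

end Pool.Agent.Helper79FreyD
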